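import Pool.Agent.L0h33.SG.Defs
import Pool.Agent.L0h58.SP.Meas
import Pool.Agent.L0h58.SP.Search

/-!
# The oracles `orcH`
-/

set_option autoImplicit false

namespace Pool.Agent.L0h33.SG

open Pool.Agent.L0h34.OM Pool.Agent.L0h34.RO Pool.Agent.L0h58.EE Pool.Agent.L0h58.SP

variable {h : ℕ → ℕ}

theorem markOK_orcH (hh : StrictMono h) (R : Oracle) : MarkOK h (orcH h R) := by
  intro n m
  rw [Bool.eq_iff_iff, orcH_mark hh, decide_eq_true_eq]

theorem space_time (hh : StrictMono h) {R : Oracle} {B : Set (List Bool)} {c : ℕ} (hc : 1 ≤ c)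
    (hB : SpaceIn (orcH h R) (fun n => 2 ^ (c * (n + 1))) B) :
    ∃ k, TimeIn (orcH h R) (fun n => 200 * 2 ^ h (c * (n + 1) + k)) B := by
  obtain ⟨u, h1⟩ := hB
  obtain ⟨j, rfl⟩ := en_surjective u
  refine ⟨j, espH j c, fun x => ?_⟩
  obtain ⟨τ, ⟨s, t, ht, h2⟩, h3⟩ := go_espH (G := orcH h R) hh (markOK_orcH hh R) j hc x
  refine ⟨s, t, τ, h2, ht, ?_⟩
  have h4 : x.length + 1 ≤ c * (x.length + 1) := Nat.le_mul_of_pos_left _ hc
  rw [h3, orcH_code hh R (by omega) (by omega)]
  obtain ⟨t', τ', h5, h6⟩ := h1 x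
  rw [h6]
  constructor
  · intro h7
    exact ⟨t', τ', h5.mono (Nat.pow_le_pow_right (by norm_num) (by omega)), h7⟩
  · rintro ⟨t'', τ'', h8, h9⟩
    rwa [(h5.det h8).2]

theorem utime_aux (hh : StrictMono h) (R : Oracle) (b : Bool) :
    UTime (orcH h R) h {x | hbH h R x = b} := by
  refine ⟨verH b, 200, fun x w => ?_, fun x => ?_⟩
  · obtain ⟨τ, ⟨s, t, ht, h2⟩, _⟩ := go_verH (G := orcH h R) (markOK_orcH hh R) b x w
    refine ⟨s, t, τ, h2, ht.trans ?_⟩
    have hn : x.length ≤ h x.length := hh.le_apply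
    obtain ⟨n, hn'⟩ : ∃ n, x.length = n := ⟨_, rfl⟩
    rw [hn'] at hn ⊢
    obtain ⟨H, hH⟩ : ∃ H, h n = H := ⟨_, rfl⟩
    rw [hH] at hn ⊢
    have h3 : (H + 1) * (n + H + 20) + 20 * n + 10 * H + 60 ≤
        (H + 1) * (2 * H + 20) + 30 * H + 60 := by
      have : (H + 1) * (n + H + 20) ≤ (H + 1) * (2 * H + 20) := Nat.mul_le_mul_left _ (by omega)
      omega
    refine h3.trans ?_
    rcases H with _ | _ | H
    · norm_num
    · norm_num
    · have h4 : (H + 1 + 1) ^ 200 = (H + 1 + 1) ^ 198 * ((H + 1 + 1) * (H + 1 + 1)) := by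
        rw [← pow_two, ← pow_add]
      have h5 : 100 ≤ (H + 1 + 1) ^ 198 := by
        calc 100 ≤ 2 ^ 198 := by norm_num
          _ ≤ (H + 1 + 1) ^ 198 := Nat.pow_le_pow_left (by omega) _
      have h6 : 100 * ((H + 1 + 1) * (H + 1 + 1)) ≤
          (H + 1 + 1) ^ 198 * ((H + 1 + 1) * (H + 1 + 1)) := Nat.mul_le_mul_right _ h5
      rw [← h4] at h6
      have h7 : (H + 1 + 1 + 1) * (2 * (H + 1 + 1) + 20) + 30 * (H + 1 + 1) + 60 ≤
          100 * ((H + 1 + 1) * (H + 1 + 1)) := by
        clear h3 h4 h5 h6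
        nlinarith
      exact h7.trans (h6.trans (Nat.le_add_right _ _))
  · have key : ∀ w, AcceptsWith (orcH h R) (verH b) x w ↔
        w = rd R [] x (h x.length) ∧ b = hbH h R x := by
      intro w
      obtain ⟨τ, ⟨s, t, _, h2⟩, h3⟩ := go_verH (G := orcH h R) (markOK_orcH hh R) b x w
      have h4 : AcceptsWith (orcH h R) (verH b) x w ↔ τ 0 ≠ [] := by
        constructor
        · rintro ⟨s', t', τ', h5, h6⟩
          rwa [(h2.det h5).2]
        · exact fun e => ⟨s, t, τ, h2, e⟩
      rw [h4, h3, orcH_false hh]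
      constructor
      · rintro ⟨h5, x', h6⟩
        have h7 : x.length = x'.length := by
          have h8 := congrArg List.length h6
          simp only [List.length_append, length_ansH, List.length_cons, List.length_nil] at h8
          rcases lt_trichotomy x.length x'.length with h9 | h9 | h9
          · have := hh h9; omega
          · exact h9
          · have := hh h9; omega
        obtain ⟨rfl, h8⟩ := List.append_inj h6 h7
        rw [ansH_eq] at h8
        obtain ⟨h9, h10⟩ := List.append_inj h8 (by rw [length_rd, h5])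
        exact ⟨h9, by simpa using h10⟩
      · rintro ⟨rfl, rfl⟩
        exact ⟨length_rd _ _ _ _, x, by rw [ansH_eq]⟩
    constructor
    · intro hx
      refine ⟨rd R [] x (h x.length), (key _).2 ⟨rfl, hx.symm⟩, fun w hw => ((key w).1 hw).1⟩
    · intro hx w hw
      exact hx ((key w).1 hw).2.symm

theorem space_aux (hh : StrictMono h) (R : Oracle) :
    SpaceIn (orcH h R) (fun n => 100 * (h n + 1) ^ 2) {x | hbH h R x = true} := by
  refine ⟨srcH, fun x => ?_⟩
  obtain ⟨T, τ, ⟨t, _, h1⟩, h2⟩ := go_srcH (G := orcH h R) hh (markOK_orcH hh R) x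
  refine ⟨t, τ, h1, ?_⟩
  rw [h2]
  simp only [Set.mem_ofPred_eq, orcH_false hh]
  constructor
  · intro hx
    exact ⟨rd R [] x (h x.length), length_rd _ _ _ _, x, by rw [ansH_eq, hx]⟩
  · rintro ⟨s, hs, x', h6⟩
    have h7 : x.length = x'.length := by
      have h8 := congrArg List.length h6
      simp only [List.length_append, length_ansH, List.length_cons, List.length_nil] at h8
      rcases lt_trichotomy x.length x'.length with h9 | h9 | h9
      · have := hh h9; omega
      · exact h9
      · have := hh h9; omega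
    obtain ⟨rfl, h8⟩ := List.append_inj h6 h7
    rw [ansH_eq] at h8
    obtain ⟨h9, h10⟩ := List.append_inj h8 (by rw [length_rd, hs])
    have := (List.cons.inj h10).1
    exact this.symm

theorem ncard_length (n : ℕ) : {x : List Bool | x.length = n}.ncard = 2 ^ n := by
  have h1 : {x : List Bool | x.length = n} =
      (List.Vector.toList '' (Set.univ : Set (List.Vector Bool n))) := by
    ext x
    simp only [Set.mem_ofPred_eq, Set.image_univ, Set.mem_range]
    constructor
    · intro hx
      exact ⟨⟨x, hx⟩, rfl⟩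
    · rintro ⟨v, rfl⟩
      exact v.2
  rw [h1, Set.ncard_image_of_injective _ List.Vector.toList_injective, Set.ncard_univ,
    Nat.card_eq_fintype_card, card_vector, Fintype.card_bool]

/-- For a suitable choice of the hidden bits the set is hard on average. -/
theorem exists_hard (hh : StrictMono h) : ∃ R : Oracle,
    ∀ u : Prog, ∃ n₀ : ℕ, ∀ n ≥ n₀, ∀ m ≤ n, ∀ a : List Bool, a.length ≤ 2 ^ m →
      ({x : List Bool | x.length = n ∧
        Correct (orcH h R) {x | hbH h R x = true} u (2 ^ h m) a x}.ncard : ℝ) ≤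
        2 ^ n / 2 + 2 * √(n * 2 ^ m * 2 ^ n) := by
  classical
  obtain ⟨R, n₁, hR⟩ := exists_goodH hh
  refine ⟨R, ?_⟩
  · intro u
    obtain ⟨j, rfl⟩ := en_surjective u
    refine ⟨max n₁ j, fun n hn m hm a ha => ?_⟩
    have hn1 : n₁ ≤ n := by omega
    have hnj : j ≤ n := by omega
    have hsub : {x : List Bool | x.length = n ∧
        Correct (orcH h R) {x | hbH h R x = true} (en j) (2 ^ h m) a x} ⊆
        ((Finset.univ.filter fun x : List.Vector Bool n =>
          hbH h R x.1 = gs (orcH h R) (en j) (init2 x.1 a) (2 ^ h m)).image List.Vector.toList :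
            Finset (List Bool)) := by
      rintro x ⟨hx, s, t, τ, h1, h2, h3⟩
      rw [Finset.mem_coe, Finset.mem_image]
      refine ⟨⟨x, hx⟩, Finset.mem_filter.2 ⟨Finset.mem_univ _, ?_⟩, rfl⟩
      simp only [Set.mem_ofPred_eq] at h3
      have h4 : gs (orcH h R) (en j) (init2 x a) (2 ^ h m) = decide (τ 0 ≠ []) := by
        unfold gs
        refine decide_eq_decide.2 ⟨?_, fun e => ⟨t, s, τ, h2, h1, e⟩⟩
        rintro ⟨t', s', τ', _, h5, h6⟩
        rwa [(h1.det h5).2]
      simp only
      rw [h4]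
      by_cases hb1 : hbH h R x = true
      · rw [hb1, eq_comm, decide_eq_true_eq]; exact h3.1 hb1
      · rw [Bool.not_eq_true] at hb1
        rw [hb1, eq_comm, decide_eq_false_iff_not]
        intro e
        rw [h3.2 e] at hb1
        exact Bool.noConfusion hb1
    have hle := (Set.ncard_le_ncard hsub (Set.toFinite _)).trans
      ((Set.ncard_coe_finset _).le.trans Finset.card_image_le)
    have h1 := hR n hn1
    have h2 : R ∉ PH h n (en j) m a := by
      intro e
      apply h1
      unfold BH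
      simp only [Set.mem_iUnion]
      exact ⟨j, Finset.mem_range.2 (by omega), m, Finset.mem_range.2 (by omega), a,
        mem_strsLe ha, e⟩
    unfold PH gbH at h2
    simp only [Set.mem_ofPred_eq, not_lt] at h2
    refine le_trans ?_ h2
    exact_mod_cast hle

end Pool.Agent.L0h33.SG
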