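import Pool.Agent.L0h34.OM.Lib

/-!
# Programs with a budget

The program `clk K k u` does the same as `u`, but for each step it takes one bit from register `K`, and
does nothing more when this register is empty.
-/

set_option autoImplicit false

namespace Pool.Agent.L0h33.SG

open Pool.Agent.L0h34.OM Function

/-- All registers used by the program are below `K`. -/
def Below (K : ℕ) : Prog → Prop
  | .nop => True
  | .put r _ => r < K
  | .copy r q => r < K ∧ q < K
  | .ask r q => r < K ∧ q < K
  | .seq u v => Below K u ∧ Below K v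
  | .take r u v w => r < K ∧ Below K u ∧ Below K v ∧ Below K w
  | .loop r u => r < K ∧ Below K u

theorem Below.mono {K K' : ℕ} (h : K ≤ K') : ∀ {u : Prog}, Below K u → Below K' u := by
  intro u
  induction u with
  | nop => exact fun _ => trivial
  | put r b => exact fun hu => lt_of_lt_of_le hu h
  | copy r q => exact fun hu => ⟨lt_of_lt_of_le hu.1 h, lt_of_lt_of_le hu.2 h⟩
  | ask r q => exact fun hu => ⟨lt_of_lt_of_le hu.1 h, lt_of_lt_of_le hu.2 h⟩
  | seq u v ih1 ih2 => exact fun hu => ⟨ih1 hu.1, ih2 hu.2⟩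
  | take r u v w ih1 ih2 ih3 =>
    exact fun hu => ⟨lt_of_lt_of_le hu.1 h, ih1 hu.2.1, ih2 hu.2.2.1, ih3 hu.2.2.2⟩
  | loop r u ih => exact fun hu => ⟨lt_of_lt_of_le hu.1 h, ih hu.2⟩

theorem exists_below (u : Prog) : ∃ K, Below K u := by
  induction u with
  | nop => exact ⟨0, trivial⟩
  | put r b => exact ⟨r + 1, Nat.lt_succ_self r⟩
  | copy r q => exact ⟨r + q + 1, by constructor <;> omega⟩
  | ask r q => exact ⟨r + q + 1, by constructor <;> omega⟩
  | seq u v ih1 ih2 =>
    obtain ⟨K1, h1⟩ := ih1
    obtain ⟨K2, h2⟩ := ih2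
    exact ⟨K1 + K2, h1.mono (by omega), h2.mono (by omega)⟩
  | take r u v w ih1 ih2 ih3 =>
    obtain ⟨K1, h1⟩ := ih1
    obtain ⟨K2, h2⟩ := ih2
    obtain ⟨K3, h3⟩ := ih3
    exact ⟨K1 + K2 + K3 + r + 1, by omega, h1.mono (by omega), h2.mono (by omega),
      h3.mono (by omega)⟩
  | loop r u ih =>
    obtain ⟨K1, h1⟩ := ih
    exact ⟨K1 + r + 1, by omega, h1.mono (by omega)⟩

/-- The size of a program. -/
def sz : Prog → ℕ
  | .nop => 1
  | .put _ _ => 1
  | .copy _ _ => 1
  | .ask _ _ => 1
  | .seq u v => sz u + sz v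
  | .take _ u v w => sz u + sz v + sz w + 1
  | .loop _ u => sz u + 1

/-- The number of nested loops. -/
def dp : Prog → ℕ
  | .nop => 0
  | .put _ _ => 0
  | .copy _ _ => 0
  | .ask _ _ => 0
  | .seq u v => max (dp u) (dp v)
  | .take _ u v w => max (dp u) (max (dp v) (dp w))
  | .loop _ u => dp u + 1

/-- Take one bit from register `K` and do `u`, if register `K` is not empty. -/
def tk (K : ℕ) (u : Prog) : Prog := .take K .nop u u

/-- Remove one bit of register `d`. -/
def rm (d : ℕ) : Prog := .take d .nop .nop .nop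

/-- The body of the loop with a budget. -/
def lbody (K d r : ℕ) (u : Prog) : Prog :=
  .take K (rm d) (.seq (.copy r (K + 1)) (.take (K + 1) (rm d) u u))
    (.seq (.copy r (K + 1)) (.take (K + 1) (rm d) u u))

/-- The program with a budget. -/
def clk (K : ℕ) : ℕ → Prog → Prog
  | _, .nop => tk K .nop
  | _, .put r b => tk K (.put r b)
  | _, .copy r q => tk K (.copy r q)
  | _, .ask r q => tk K (.ask r q)
  | k, .seq u v => .seq (clk K k u) (clk K k v)
  | k, .take r u v w => tk K (.take r (clk K k u) (clk K k v) (clk K k w))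
  | k, .loop r u => .seq (.put (K + 2 + k) true)
      (.loop (K + 2 + k) (lbody K (K + 2 + k) r (clk K (k + 1) u)))

/-- The auxiliary registers are empty. -/
def Clean (K k n : ℕ) (σ : Store) : Prop := ∀ j, k ≤ j → j < n → σ (K + 2 + j) = []

variable {G : Oracle} {s K : ℕ}

theorem reach_rm {σ : Store} {d : ℕ} (h : σ d = [true]) : Reach G s (rm d) σ 2 (update σ d []) :=
  Reach.take_true h Reach.nop

theorem tk_dead {σ : Store} {u : Prog} (h : σ K = []) : Reach G s (tk K u) σ 2 σ :=
  Reach.take_nil h Reach.nop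

theorem tk_alive {σ τ : Store} {u : Prog} {b : Bool} {l : List Bool} {T : ℕ} (h : σ K = b :: l)
    (hu : Reach G s u (update σ K l) T τ) : Reach G s (tk K u) σ (T + 1) τ := by
  cases b
  · exact Reach.take_false h hu
  · exact Reach.take_true h hu

/-- The loop stops if the budget is empty. -/
theorem loop_dead {σ : Store} {r d : ℕ} {u : Prog} (h : σ K = []) (hd : σ d = [true]) :
    Reach G s (.loop d (lbody K d r u)) σ 6 (update σ d []) := by
  have h1 : Reach G s (lbody K d r u) σ 3 (update σ d []) := Reach.take_nil h (reach_rm hd)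
  refine (Reach.loop_cons (by rw [hd]; simp) h1 (Reach.loop_nil ?_)).mono (by omega)
  rw [update_self]

/-- Without a budget nothing is done. -/
theorem clk_dead (hs : 1 ≤ s) (u : Prog) : ∀ (k n : ℕ) (σ : Store), k + dp u ≤ n → σ K = [] →
    Clean K k n σ → Reach G s (clk K k u) σ (8 * sz u) σ := by
  induction u with
  | nop => exact fun k n σ _ h _ => (tk_dead h).mono (by unfold sz; omega)
  | put r b => exact fun k n σ _ h _ => (tk_dead h).mono (by unfold sz; omega)
  | copy r q => exact fun k n σ _ h _ => (tk_dead h).mono (by unfold sz; omega)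
  | ask r q => exact fun k n σ _ h _ => (tk_dead h).mono (by unfold sz; omega)
  | seq u v ih1 ih2 =>
    intro k n σ hn h hc
    unfold dp at hn
    exact ((ih1 k n σ (by omega) h hc).seq (ih2 k n σ (by omega) h hc)).mono (by
      rw [sz]; omega)
  | take r u v w _ _ _ => exact fun k n σ _ h _ => (tk_dead h).mono (by rw [sz]; omega)
  | loop r u _ =>
    intro k n σ hn h hc
    unfold dp at hn
    have hd : σ (K + 2 + k) = [] := hc k le_rfl (by omega)
    have h1 : Reach G s (.put (K + 2 + k) true) σ 1 (update σ (K + 2 + k) [true]) := by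
      have := Reach.put (G := G) (s := s) (r := K + 2 + k) (σ := σ) true (by rw [hd]; simpa using hs)
      rwa [hd] at this
    have h2 : Reach G s (.loop (K + 2 + k) (lbody K (K + 2 + k) r (clk K (k + 1) u)))
        (update σ (K + 2 + k) [true]) 6 σ := by
      have := loop_dead (G := G) (s := s) (K := K) (σ := update σ (K + 2 + k) [true]) (r := r)
        (d := K + 2 + k) (u := clk K (k + 1) u)
        (by rw [update_of_ne (by omega)]; exact h) (update_self _ _ _)
      have e : update (update σ (K + 2 + k) [true]) (K + 2 + k) [] = σ := by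
        rw [update_idem, update_eq_iff]
        exact ⟨hd.symm, fun _ _ => rfl⟩
      rwa [e] at this
    exact (h1.seq h2).mono (by rw [sz]; omega)

/-- The result of a run of a program with a budget. -/
structure Res (G : Oracle) (K Λ W n : ℕ) (v : Prog) (z t : ℕ) (τ : Store) (σ' : Store) : Prop where
  out : ∃ (T : ℕ) (τ' : Store), Reach G (Λ + 1) v σ' T τ' ∧
    (∀ j, τ' (K + 2 + j) = σ' (K + 2 + j)) ∧ (∀ r < K, (τ' r).length + (τ' K).length ≤ Λ) ∧
    (τ' K).length ≤ Λ ∧ (τ' K).length ≤ (σ' K).length ∧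
    T ≤ ((σ' K).length - (τ' K).length) * W + 8 * z ∧
    (((∀ r < K, τ' r = τ r) ∧ (σ' K).length ≤ (τ' K).length + t) ∨
      (τ' K = [] ∧ (σ' K).length ≤ t))

theorem res_dead {Λ W n z t : ℕ} {v : Prog} {τ σ' : Store} (h : Reach G (Λ + 1) v σ' (8 * z) σ')
    (h0 : σ' K = []) (hΛ : ∀ r < K, (σ' r).length + (σ' K).length ≤ Λ) :
    Res G K Λ W n v z t τ σ' := by
  refine ⟨8 * z, σ', h, fun _ => rfl, hΛ, by rw [h0]; exact Nat.zero_le _, le_rfl, by omega,
    Or.inr ⟨h0, by rw [h0]; exact Nat.zero_le _⟩⟩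

end Pool.Agent.L0h33.SG
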