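import Pool.Agent.L0h33.SG.Clk

/-!
# The run of a program with a budget
-/

set_option autoImplicit false

namespace Pool.Agent.L0h33.SG

open Pool.Agent.L0h34.OM Function

variable {G : Oracle} {s K Λ W n : ℕ}

theorem res_op {z t T1 : ℕ} {op : Prog} {τ σ' τ' : Store} {b : Bool} {l : List Bool}
    (hb : σ' K = b :: l) (h1 : Reach G (Λ + 1) op (update σ' K l) T1 τ') (hT : T1 ≤ Λ + 1)
    (hK : τ' K = l) (hf : ∀ j, τ' (K + 2 + j) = σ' (K + 2 + j))
    (hinv : ∀ r < K, (τ' r).length + l.length ≤ Λ) (hsim : ∀ r < K, τ' r = τ r)
    (hΛ : (σ' K).length ≤ Λ) (ht : 1 ≤ t) (hW : Λ + 20 ≤ W) :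
    Res G K Λ W n (tk K op) z t τ σ' := by
  have e : (σ' K).length = l.length + 1 := by rw [hb]; rfl
  refine ⟨T1 + 1, τ', tk_alive hb h1, hf, by rw [hK]; exact hinv, by rw [hK]; omega,
    by rw [hK]; omega, ?_, Or.inl ⟨hsim, by rw [hK]; omega⟩⟩
  rw [hK, e, show l.length + 1 - l.length = 1 by omega]
  omega

theorem res_tk {z z' t t1 : ℕ} {X v' : Prog} {τ σ' σ1 : Store}
    (hr : Res G K Λ W n v' z' t1 τ σ1)
    (hwrap : ∀ T τ', Reach G (Λ + 1) v' σ1 T τ' → Reach G (Λ + 1) (tk K X) σ' (T + 3) τ')
    (hf : ∀ j, σ1 (K + 2 + j) = σ' (K + 2 + j)) (hl : (σ1 K).length + 1 = (σ' K).length)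
    (hz : z' ≤ z) (ht : t1 + 1 ≤ t) (hW : Λ + 20 ≤ W) : Res G K Λ W n (tk K X) z t τ σ' := by
  obtain ⟨T, τ', h1, h2, h3, h4, h5, h6, h7⟩ := hr
  refine ⟨T + 3, τ', hwrap T τ' h1, fun j => (h2 j).trans (hf j), h3, h4, by omega, ?_, ?_⟩
  · have e : (σ' K).length - (τ' K).length = ((σ1 K).length - (τ' K).length) + 1 := by omega
    rw [e, add_mul, one_mul]
    omega
  · rcases h7 with ⟨h8, h9⟩ | ⟨h8, h9⟩
    · exact Or.inl ⟨h8, by omega⟩
    · exact Or.inr ⟨h8, by omega⟩

theorem clk_run {u : Prog} {σ τ : Store} {t : ℕ} (h : Run G s u σ t τ) :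
    ∀ (k : ℕ) (σ' : Store), Below K u → k + dp u ≤ n → Clean K k n σ' →
      (∀ r < K, σ' r = σ r) → (∀ r < K, (σ' r).length + (σ' K).length ≤ Λ) →
      (σ' K).length ≤ Λ → Λ + 8 * sz u + 20 ≤ W → Res G K Λ W n (clk K k u) (sz u) t τ σ' := by
  induction h with
  | nop σ =>
    intro k σ' _ _ hc hsim hinv hΛ hW
    rcases hK : σ' K with _ | ⟨b, l⟩
    · exact res_dead ((tk_dead hK).mono (by unfold sz; omega)) hK hinv
    · refine res_op hK Reach.nop (by omega) (update_self _ _ _)
        (fun j => update_of_ne (by omega) _ _) (fun r hr => ?_) (fun r hr => ?_) hΛ le_rfl (by omega)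
      · rw [update_of_ne (by omega)]
        have := hinv r hr
        rw [hK] at this
        simp only [List.length_cons] at this
        omega
      · rw [update_of_ne (by omega)]
        exact hsim r hr
  | put r b σ _ =>
    intro k σ' hB _ hc hsim hinv hΛ hW
    have hr : r < K := hB
    rcases hK : σ' K with _ | ⟨b', l⟩
    · exact res_dead ((tk_dead hK).mono (by unfold sz; omega)) hK hinv
    · have hi := hinv r hr
      rw [hK] at hi
      simp only [List.length_cons] at hi
      have e1 : update σ' K l r = σ' r := update_of_ne (by omega) _ _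
      have h1 : Reach G (Λ + 1) (.put r b) (update σ' K l) 1
          (update (update σ' K l) r (update σ' K l r ++ [b])) := Reach.put b (by rw [e1]; omega)
      refine res_op hK h1 (by omega) ?_ (fun j => ?_) (fun q hq => ?_) (fun q hq => ?_) hΛ le_rfl
        (by omega)
      · rw [update_of_ne (by omega), update_self]
      · rw [update_of_ne (by omega), update_of_ne (by omega)]
      · by_cases hqr : q = r
        · subst hqr
          rw [update_self, e1, List.length_append]
          simp only [List.length_cons, List.length_nil]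
          omega
        · rw [update_of_ne hqr, update_of_ne (by omega)]
          have := hinv q hq
          rw [hK] at this
          simp only [List.length_cons] at this
          omega
      · by_cases hqr : q = r
        · subst hqr
          rw [update_self, e1, update_self, hsim q hq]
        · rw [update_of_ne hqr, update_of_ne (by omega), update_of_ne hqr, hsim q hq]
  | copy r q σ _ =>
    intro k σ' hB _ hc hsim hinv hΛ hW
    obtain ⟨hr, hq⟩ : r < K ∧ q < K := hB
    rcases hK : σ' K with _ | ⟨b', l⟩
    · exact res_dead ((tk_dead hK).mono (by unfold sz; omega)) hK hinv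
    · have hi := hinv r hr
      rw [hK] at hi
      simp only [List.length_cons] at hi
      have e1 : update σ' K l r = σ' r := update_of_ne (by omega) _ _
      have h1 : Reach G (Λ + 1) (.copy r q) (update σ' K l) ((update σ' K l r).length + 1)
          (update (update σ' K l) q (update σ' K l r)) := Reach.copy (by rw [e1]; omega)
      refine res_op hK h1 (by rw [e1]; omega) ?_ (fun j => ?_) (fun p hp => ?_) (fun p hp => ?_) hΛ
        (by omega) (by omega)
      · rw [update_of_ne (by omega), update_self]
      · rw [update_of_ne (by omega), update_of_ne (by omega)]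
      · by_cases hqr : p = q
        · subst hqr
          rw [update_self, e1]
          omega
        · rw [update_of_ne hqr, update_of_ne (by omega)]
          have := hinv p hp
          rw [hK] at this
          simp only [List.length_cons] at this
          omega
      · by_cases hqr : p = q
        · subst hqr
          rw [update_self, e1, update_self, hsim r hr]
        · rw [update_of_ne hqr, update_of_ne (by omega), update_of_ne hqr, hsim p hp]
  | ask r q σ _ _ =>
    intro k σ' hB _ hc hsim hinv hΛ hW
    obtain ⟨hr, hq⟩ : r < K ∧ q < K := hB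
    rcases hK : σ' K with _ | ⟨b', l⟩
    · exact res_dead ((tk_dead hK).mono (by unfold sz; omega)) hK hinv
    · have hi := hinv r hr
      rw [hK] at hi hΛ
      simp only [List.length_cons] at hi hΛ
      have e1 : update σ' K l r = σ' r := update_of_ne (by omega) _ _
      have h1 : Reach G (Λ + 1) (.ask r q) (update σ' K l) ((update σ' K l r).length + 1)
          (update (update σ' K l) q [G (update σ' K l r)]) :=
        Reach.ask (by rw [e1]; omega) (by omega)
      refine res_op hK h1 (by rw [e1]; omega) ?_ (fun j => ?_) (fun p hp => ?_) (fun p hp => ?_)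
        (by rw [hK]; simpa using hΛ) (by omega) (by omega)
      · rw [update_of_ne (by omega), update_self]
      · rw [update_of_ne (by omega), update_of_ne (by omega)]
      · by_cases hqr : p = q
        · subst hqr
          rw [update_self]
          simp only [List.length_cons, List.length_nil]
          omega
        · rw [update_of_ne hqr, update_of_ne (by omega)]
          have := hinv p hp
          rw [hK] at this
          simp only [List.length_cons] at this
          omega
      · by_cases hqr : p = q
        · subst hqr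
          rw [update_self, e1, update_self, hsim r hr]
        · rw [update_of_ne hqr, update_of_ne (by omega), update_of_ne hqr, hsim p hp]
  | @seq u v σ τ ρ t1 t2 _ _ ih1 ih2 =>
    intro k σ' hB hn hc hsim hinv hΛ hW
    obtain ⟨hB1, hB2⟩ : Below K u ∧ Below K v := hB
    rw [dp] at hn
    rw [sz] at hW ⊢
    obtain ⟨T1, τ1, a1, a2, a3, a4, a5, a6, a7⟩ := ih1 k σ' hB1 (by omega) hc hsim hinv hΛ (by omega)
    have hc1 : Clean K k n τ1 := fun j h1 h2 => (a2 j).trans (hc j h1 h2)
    rcases a7 with ⟨b1, b2⟩ | ⟨b1, b2⟩
    · obtain ⟨T2, τ2, c1, c2, c3, c4, c5, c6, c7⟩ := ih2 k τ1 hB2 (by omega) hc1 b1 a3 a4 (by omega)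
      refine ⟨T1 + T2, τ2, a1.seq c1, fun j => (c2 j).trans (a2 j), c3, c4, by omega, ?_, ?_⟩
      · have e : (σ' K).length - (τ2 K).length =
            ((σ' K).length - (τ1 K).length) + ((τ1 K).length - (τ2 K).length) := by omega
        rw [e, add_mul]
        omega
      · rcases c7 with ⟨d1, d2⟩ | ⟨d1, d2⟩
        · exact Or.inl ⟨d1, by omega⟩
        · exact Or.inr ⟨d1, by omega⟩
    · have c1 := clk_dead (G := G) (s := Λ + 1) (by omega) v k n τ1 (by omega) b1 hc1
      refine ⟨T1 + 8 * sz v, τ1, a1.seq c1, a2, a3, a4, a5, by omega, Or.inr ⟨b1, by omega⟩⟩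
  | @take_nil r u v w σ τ t1 h0 _ ih =>
    intro k σ' hB hn hc hsim hinv hΛ hW
    obtain ⟨hr, hB1, _, _⟩ : r < K ∧ Below K u ∧ Below K v ∧ Below K w := hB
    rcases hK : σ' K with _ | ⟨b', l⟩
    · exact res_dead (clk_dead (by omega) _ k n σ' hn hK hc) hK hinv
    rw [dp] at hn
    rw [sz] at hW ⊢
    have hlen : (σ' K).length = l.length + 1 := by rw [hK]; rfl
    have e1 : ∀ q < K, update σ' K l q = σ' q := fun q hq => update_of_ne (by omega) _ _
    have hf : ∀ j, update σ' K l (K + 2 + j) = σ' (K + 2 + j) := fun j => update_of_ne (by omega) _ _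
    have hr1 := ih k (update σ' K l) hB1 (by omega) (fun j h1 h2 => (hf j).trans (hc j h1 h2))
      (fun q hq => (e1 q hq).trans (hsim q hq)) (fun q hq => by
        rw [e1 q hq, update_self]; have := hinv q hq; omega) (by rw [update_self]; omega) (by omega)
    refine res_tk hr1 (fun T τ' hT => ?_) hf (by rw [update_self, hlen]) (by omega) le_rfl (by omega)
    exact (tk_alive hK (Reach.take_nil (by rw [e1 r hr, hsim r hr, h0]) hT)).mono (by omega)
  | @take_false r u v w σ τ t1 lr h0 _ ih =>
    intro k σ' hB hn hc hsim hinv hΛ hW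
    obtain ⟨hr, _, hB1, _⟩ : r < K ∧ Below K u ∧ Below K v ∧ Below K w := hB
    rcases hK : σ' K with _ | ⟨b', l⟩
    · exact res_dead (clk_dead (by omega) _ k n σ' hn hK hc) hK hinv
    rw [dp] at hn
    rw [sz] at hW ⊢
    have hlen : (σ' K).length = l.length + 1 := by rw [hK]; rfl
    have e1 : ∀ q < K, update σ' K l q = σ' q := fun q hq => update_of_ne (by omega) _ _
    have hf : ∀ j, update (update σ' K l) r lr (K + 2 + j) = σ' (K + 2 + j) := fun j => by
      rw [update_of_ne (by omega), update_of_ne (by omega)]
    have hKl : update (update σ' K l) r lr K = l := by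
      rw [update_of_ne (by omega), update_self]
    have hr1 := ih k (update (update σ' K l) r lr) hB1 (by omega)
      (fun j h1 h2 => (hf j).trans (hc j h1 h2))
      (fun q hq => by
        by_cases hqr : q = r
        · subst hqr; rw [update_self, update_self]
        · rw [update_of_ne hqr, e1 q hq, update_of_ne hqr, hsim q hq])
      (fun q hq => by
        rw [hKl]
        by_cases hqr : q = r
        · subst hqr
          rw [update_self]
          have := hinv q hq
          rw [hsim q hq, h0, List.length_cons] at this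
          omega
        · rw [update_of_ne hqr, e1 q hq]; have := hinv q hq; omega) (by rw [hKl]; omega) (by omega)
    refine res_tk hr1 (fun T τ' hT => ?_) hf (by rw [hKl, hlen]) (by omega) le_rfl (by omega)
    exact (tk_alive hK (Reach.take_false (by rw [e1 r hr, hsim r hr, h0]) hT)).mono (by omega)
  | @take_true r u v w σ τ t1 lr h0 _ ih =>
    intro k σ' hB hn hc hsim hinv hΛ hW
    obtain ⟨hr, _, _, hB1⟩ : r < K ∧ Below K u ∧ Below K v ∧ Below K w := hB
    rcases hK : σ' K with _ | ⟨b', l⟩
    · exact res_dead (clk_dead (by omega) _ k n σ' hn hK hc) hK hinv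
    rw [dp] at hn
    rw [sz] at hW ⊢
    have hlen : (σ' K).length = l.length + 1 := by rw [hK]; rfl
    have e1 : ∀ q < K, update σ' K l q = σ' q := fun q hq => update_of_ne (by omega) _ _
    have hf : ∀ j, update (update σ' K l) r lr (K + 2 + j) = σ' (K + 2 + j) := fun j => by
      rw [update_of_ne (by omega), update_of_ne (by omega)]
    have hKl : update (update σ' K l) r lr K = l := by
      rw [update_of_ne (by omega), update_self]
    have hr1 := ih k (update (update σ' K l) r lr) hB1 (by omega)
      (fun j h1 h2 => (hf j).trans (hc j h1 h2))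
      (fun q hq => by
        by_cases hqr : q = r
        · subst hqr; rw [update_self, update_self]
        · rw [update_of_ne hqr, e1 q hq, update_of_ne hqr, hsim q hq])
      (fun q hq => by
        rw [hKl]
        by_cases hqr : q = r
        · subst hqr
          rw [update_self]
          have := hinv q hq
          rw [hsim q hq, h0, List.length_cons] at this
          omega
        · rw [update_of_ne hqr, e1 q hq]; have := hinv q hq; omega) (by rw [hKl]; omega) (by omega)
    refine res_tk hr1 (fun T τ' hT => ?_) hf (by rw [hKl, hlen]) (by omega) le_rfl (by omega)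
    exact (tk_alive hK (Reach.take_true (by rw [e1 r hr, hsim r hr, h0]) hT)).mono (by omega)
  | @loop_nil r u σ h0 =>
    intro k σ' hB hn hc hsim hinv hΛ hW
    obtain ⟨hr, _⟩ : r < K ∧ Below K u := hB
    rcases hK : σ' K with _ | ⟨b', l⟩
    · exact res_dead (clk_dead (by omega) _ k n σ' hn hK hc) hK hinv
    rw [dp] at hn
    rw [sz] at hW ⊢
    have hlen : (σ' K).length = l.length + 1 := by rw [hK]; rfl
    obtain ⟨d, hd⟩ : ∃ d, d = K + 2 + k := ⟨_, rfl⟩
    have hd0 : σ' d = [] := by rw [hd]; exact hc k le_rfl (by omega)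
    have hdK : d ≠ K := by omega
    have hd1 : d ≠ K + 1 := by omega
    have hrd : r ≠ d := by omega
    have h1 : Reach G (Λ + 1) (.put d true) σ' 1 (update σ' d [true]) := by
      have := Reach.put (G := G) (s := Λ + 1) (r := d) (σ := σ') true (by rw [hd0]; simp)
      rwa [hd0] at this
    obtain ⟨σa, hσa⟩ : ∃ σa, σa = update σ' d [true] := ⟨_, rfl⟩
    have ha0 : σa r = [] := by rw [hσa, update_of_ne hrd, hsim r hr, h0]
    have haK : σa K = b' :: l := by rw [hσa, update_of_ne (Ne.symm hdK), hK]
    obtain ⟨σb, hσb⟩ : ∃ σb, σb = update (update σa K l) (K + 1) [] := ⟨_, rfl⟩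
    have h2 : Reach G (Λ + 1) (.copy r (K + 1)) (update σa K l) 1 σb := by
      have e : update σa K l r = [] := by rw [update_of_ne (by omega), ha0]
      have := Reach.copy (G := G) (s := Λ + 1) (r := r) (q := K + 1) (σ := update σa K l)
        (by rw [e]; simp)
      rw [e] at this
      rw [hσb]
      simpa using this
    have hbd : σb d = [true] := by
      rw [hσb, update_of_ne hd1, update_of_ne hdK, hσa, update_self]
    have h3 : Reach G (Λ + 1) (.take (K + 1) (rm d) (clk K (k + 1) u) (clk K (k + 1) u)) σb 3
        (update σb d []) := Reach.take_nil (by rw [hσb, update_self]) (reach_rm hbd)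
    have h4 : Reach G (Λ + 1) (lbody K d r (clk K (k + 1) u)) σa 5 (update σb d []) := by
      unfold lbody
      cases b'
      · exact (Reach.take_false haK (h2.seq h3)).mono (by omega)
      · exact (Reach.take_true haK (h2.seq h3)).mono (by omega)
    have h5 : Reach G (Λ + 1) (.loop d (lbody K d r (clk K (k + 1) u))) σa 8 (update σb d []) := by
      refine (Reach.loop_cons ?_ h4 (Reach.loop_nil (update_self _ _ _))).mono (by omega)
      rw [hσa, update_self]; simp
    rw [← hσa] at h1
    have h6 := h1.seq h5
    have e2 : ∀ q, q ≠ K → q ≠ K + 1 → q ≠ d → update σb d [] q = σ' q := by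
      intro q q1 q2 q3
      rw [update_of_ne q3, hσb, update_of_ne q2, update_of_ne q1, hσa, update_of_ne q3]
    have e3 : update σb d [] K = l := by
      rw [update_of_ne (Ne.symm hdK), hσb, update_of_ne (by omega), update_self]
    refine ⟨9, update σb d [], ?_, fun j => ?_, fun q hq => ?_, by rw [e3]; omega,
      by rw [e3]; omega, ?_, Or.inl ⟨fun q hq => ?_, by rw [e3]; omega⟩⟩
    · rw [clk, ← hd]
      exact h6
    · by_cases hj : K + 2 + j = d
      · rw [hj, update_self, hd0]
      · exact e2 _ (by omega) (by omega) hj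
    · rw [e3, e2 q (by omega) (by omega) (by omega)]
      have := hinv q hq
      omega
    · rw [e3, hlen, show l.length + 1 - l.length = 1 by omega]
      omega
    · rw [e2 q (by omega) (by omega) (by omega), hsim q hq]
  | @loop_cons r u σ τ ρ t1 t2 h0 _ _ ih1 ih2 =>
    intro k σ' hB hn hc hsim hinv hΛ hW
    have hB' : r < K ∧ Below K u := hB
    obtain ⟨hr, hBu⟩ := hB'
    rcases hK : σ' K with _ | ⟨b', l⟩
    · exact res_dead (clk_dead (by omega) _ k n σ' hn hK hc) hK hinv
    have hn' := hn
    rw [dp] at hn'
    have hW' := hW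
    rw [sz] at hW'
    have hlen : (σ' K).length = l.length + 1 := by rw [hK]; rfl
    obtain ⟨d, hd⟩ : ∃ d, d = K + 2 + k := ⟨_, rfl⟩
    have hd0 : σ' d = [] := by rw [hd]; exact hc k le_rfl (by omega)
    have hdK : d ≠ K := by omega
    have hd1 : d ≠ K + 1 := by omega
    have hrd : r ≠ d := by omega
    have h1 : Reach G (Λ + 1) (.put d true) σ' 1 (update σ' d [true]) := by
      have := Reach.put (G := G) (s := Λ + 1) (r := d) (σ := σ') true (by rw [hd0]; simp)
      rwa [hd0] at this
    obtain ⟨σa, hσa⟩ : ∃ σa, σa = update σ' d [true] := ⟨_, rfl⟩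
    have har : σa r = σ r := by rw [hσa, update_of_ne hrd, hsim r hr]
    have haK : σa K = b' :: l := by rw [hσa, update_of_ne (Ne.symm hdK), hK]
    obtain ⟨c0, lr, hlr⟩ : ∃ c0 lr, σ r = c0 :: lr := by
      cases hσr : σ r with
      | nil => exact absurd hσr h0
      | cons c0 lr => exact ⟨c0, lr, rfl⟩
    have hrlen : (σ r).length ≤ Λ := by
      have := hinv r hr
      rw [hsim r hr] at this
      omega
    have h2 : Reach G (Λ + 1) (.copy r (K + 1)) (update σa K l) ((σ r).length + 1)
        (update (update σa K l) (K + 1) (c0 :: lr)) := by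
      have e : update σa K l r = σ r := by rw [update_of_ne (by omega), har]
      have := Reach.copy (G := G) (s := Λ + 1) (r := r) (q := K + 1) (σ := update σa K l)
        (by rw [e]; omega)
      rw [e] at this
      rwa [hlr] at this ⊢
    obtain ⟨σb, hσb⟩ : ∃ σb, σb = update (update σa K l) (K + 1) lr := ⟨_, rfl⟩
    have hbd : σb d = [true] := by
      rw [hσb, update_of_ne hd1, update_of_ne hdK, hσa, update_self]
    have eb : ∀ q, q ≠ K → q ≠ K + 1 → q ≠ d → σb q = σ' q := by
      intro q q1 q2 q3
      rw [hσb, update_of_ne q2, update_of_ne q1, hσa, update_of_ne q3]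
    have ebK : σb K = l := by rw [hσb, update_of_ne (by omega), update_self]
    obtain ⟨T1, τ1, a1, a2, a3, a4, a5, a6, a7⟩ := ih1 (k + 1) σb hBu (by omega)
      (fun j j1 j2 => by rw [eb _ (by omega) (by omega) (by omega)]; exact hc j (by omega) j2)
      (fun q hq => by rw [eb q (by omega) (by omega) (by omega)]; exact hsim q hq)
      (fun q hq => by
        rw [eb q (by omega) (by omega) (by omega), ebK]; have := hinv q hq; omega)
      (by rw [ebK]; omega) (by omega)
    have h3 : Reach G (Λ + 1) (.take (K + 1) (rm d) (clk K (k + 1) u) (clk K (k + 1) u))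
        (update (update σa K l) (K + 1) (c0 :: lr)) (T1 + 1) τ1 := by
      have e : update (update (update σa K l) (K + 1) (c0 :: lr)) (K + 1) lr = σb := by
        rw [update_idem, hσb]
      cases c0
      · exact Reach.take_false (update_self _ _ _) (by rw [e]; exact a1)
      · exact Reach.take_true (update_self _ _ _) (by rw [e]; exact a1)
    have h4 : Reach G (Λ + 1) (lbody K d r (clk K (k + 1) u)) σa ((σ r).length + T1 + 3) τ1 := by
      unfold lbody
      cases b'
      · exact (Reach.take_false haK (h2.seq h3)).mono (by omega)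
      · exact (Reach.take_true haK (h2.seq h3)).mono (by omega)
    have hτd : τ1 d = [true] := by
      have := a2 k
      rw [← hd] at this
      rw [this, hbd]
    have hne : σa d ≠ [] := by rw [hσa, update_self]; simp
    rw [← hσa] at h1
    have ef : ∀ j, K + 2 + j ≠ d → τ1 (K + 2 + j) = σ' (K + 2 + j) := fun j hj => by
      rw [a2 j, eb _ (by omega) (by omega) hj]
    rw [ebK] at a5 a6 a7
    rcases a7 with ⟨b1, b2⟩ | ⟨b1, b2⟩
    · -- the budget was sufficient
      obtain ⟨τc, hτc⟩ : ∃ τc, τc = update τ1 d [] := ⟨_, rfl⟩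
      have ec : ∀ q, q ≠ d → τc q = τ1 q := fun q hq => by rw [hτc, update_of_ne hq]
      have ecd : τc d = [] := by rw [hτc, update_self]
      have hcc : Clean K k n τc := by
        intro j j1 j2
        by_cases hj : K + 2 + j = d
        · rw [hj, ecd]
        · rw [ec _ hj, ef j hj]; exact hc j j1 j2
      obtain ⟨T2, τ2, c1, c2, c3, c4, c5, c6, c7⟩ := ih2 k τc hB hn hcc
        (fun q hq => by rw [ec q (by omega)]; exact b1 q hq)
        (fun q hq => by rw [ec q (by omega), ec K (Ne.symm hdK)]; exact a3 q hq)
        (by rw [ec K (Ne.symm hdK)]; exact a4) hW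
      rw [ec K (Ne.symm hdK)] at c5 c6 c7
      have h5 : Reach G (Λ + 1) (.loop d (lbody K d r (clk K (k + 1) u))) τ1 T2 τ2 := by
        obtain ⟨t', ht', hrun⟩ := c1
        rw [clk, ← hd] at hrun
        cases hrun with
        | seq r1 r2 =>
          cases r1 with
          | put _ _ _ hs1 =>
            have e : update τc d (τc d ++ [true]) = τ1 := by
              rw [ecd, hτc, update_idem, List.nil_append, update_eq_iff]
              exact ⟨hτd.symm, fun _ _ => rfl⟩
            rw [e] at r2
            exact ⟨_, by omega, r2⟩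
      have h6 := h1.seq (Reach.loop_cons hne h4 h5)
      refine ⟨1 + ((σ r).length + T1 + 3 + T2 + 1), τ2, ?_, fun j => ?_, c3, c4, by omega, ?_, ?_⟩
      · rw [clk, ← hd]
        exact h6
      · rw [c2 j]
        by_cases hj : K + 2 + j = d
        · rw [hj, ecd, hd0]
        · rw [ec _ hj, ef j hj]
      · have e : (σ' K).length - (τ2 K).length =
            (l.length - (τ1 K).length) + ((τ1 K).length - (τ2 K).length) + 1 := by omega
        rw [e, add_mul, add_mul, one_mul]
        rw [sz] at c6 ⊢
        omega
      · rcases c7 with ⟨d1, d2⟩ | ⟨d1, d2⟩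
        · exact Or.inl ⟨d1, by omega⟩
        · exact Or.inr ⟨d1, by omega⟩
    · -- the budget was too small
      have h5 := loop_dead (G := G) (s := Λ + 1) (K := K) (σ := τ1) (r := r) (d := d)
        (u := clk K (k + 1) u) b1 hτd
      have h6 := h1.seq (Reach.loop_cons hne h4 h5)
      have eK : update τ1 d [] K = [] := by rw [update_of_ne (Ne.symm hdK), b1]
      refine ⟨1 + ((σ r).length + T1 + 3 + 6 + 1), update τ1 d [], ?_, fun j => ?_, fun q hq => ?_,
        by rw [eK]; exact Nat.zero_le _, by rw [eK]; exact Nat.zero_le _, ?_,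
        Or.inr ⟨eK, by omega⟩⟩
      · rw [clk, ← hd]
        exact h6
      · by_cases hj : K + 2 + j = d
        · rw [hj, update_self, hd0]
        · rw [update_of_ne hj, ef j hj]
      · rw [eK, update_of_ne (by omega)]
        have := a3 q hq
        simp only [List.length_nil]
        omega
      · rw [b1] at a6
        rw [eK]
        simp only [List.length_nil, Nat.sub_zero] at a6 ⊢
        rw [hlen, add_mul, one_mul, sz]
        omega

end Pool.Agent.L0h33.SG
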