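import Pool.Agent.L0h34.OM.Lib
import Pool.Agent.L0h34.RO.Defs

/-!
# Time and space relative to an oracle, and sets of input lengths
-/

set_option autoImplicit false

namespace Pool.Agent.L0h33.SG

open Pool.Agent.L0h34.OM Pool.Agent.L0h34.RO

/-- Relative to `A` the set `B` is decidable in space `f n`: on the inputs of length `n` the program
writes or asks only strings of length at most `f n`; it accepts if register `0` is not empty at the
end. -/
def SpaceIn (A : Oracle) (f : ℕ → ℕ) (B : Set (List Bool)) : Prop :=
  ∃ u : Prog, ∀ x : List Bool, ∃ (t : ℕ) (τ : Store),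
    Run A (f x.length) u (init x) t τ ∧ (x ∈ B ↔ τ 0 ≠ [])

/-- Relative to `A` the set `B` is decidable in time `f n`. -/
def TimeIn (A : Oracle) (f : ℕ → ℕ) (B : Set (List Bool)) : Prop :=
  ∃ u : Prog, ∀ x : List Bool, ∃ (s t : ℕ) (τ : Store),
    Run A s u (init x) t τ ∧ t ≤ f x.length ∧ (x ∈ B ↔ τ 0 ≠ [])

/-- Linear exponential space relative to `A`. -/
def EXPSPACE (A : Oracle) (B : Set (List Bool)) : Prop :=
  ∃ c : ℕ, SpaceIn A (fun n => 2 ^ (c * (n + 1))) B

/-- Linear exponential time relative to `A`. -/
def EXPTIME (A : Oracle) (B : Set (List Bool)) : Prop :=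
  ∃ c : ℕ, TimeIn A (fun n => 2 ^ (c * (n + 1))) B

/-- The verifier `u` accepts the input `x` with the witness `w`. -/
def AcceptsWith (A : Oracle) (u : Prog) (x w : List Bool) : Prop :=
  ∃ (s t : ℕ) (τ : Store), Run A s u (init2 x w) t τ ∧ τ 0 ≠ []

/-- Unambiguous time polynomial in `h n`, relative to `A`: a verifier that makes at most
`(h n) ^ c + c` steps on the inputs of length `n`, for all witnesses, accepts the inputs in `B` with
exactly one witness, and the other inputs with no witness. -/
def UTime (A : Oracle) (h : ℕ → ℕ) (B : Set (List Bool)) : Prop :=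
  ∃ (u : Prog) (c : ℕ),
    (∀ x w : List Bool, ∃ (s t : ℕ) (τ : Store), Run A s u (init2 x w) t τ ∧
      t ≤ (h x.length) ^ c + c) ∧
    ∀ x, (x ∈ B → ∃! w, AcceptsWith A u x w) ∧ (x ∉ B → ∀ w, ¬ AcceptsWith A u x w)

/-- The program `u`, started with the input `x` in register `0` and the advice `a` in register `1`,
stops after at most `T` steps and decides correctly whether `x` is in `B`. -/
def Correct (A : Oracle) (B : Set (List Bool)) (u : Prog) (T : ℕ) (a x : List Bool) : Prop :=
  ∃ (s t : ℕ) (τ : Store), Run A s u (init2 x a) t τ ∧ t ≤ T ∧ (x ∈ B ↔ τ 0 ≠ [])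

/-- `UP` relative to `A`: a verifier which makes at most `n ^ c + c` steps on the inputs of length `n`,
for all witnesses, accepts the inputs in `B` with exactly one witness, and the other inputs with no
witness. -/
def UP (A : Oracle) (B : Set (List Bool)) : Prop := UTime A (fun n => n) B

/-- Relative to `A` every set `B` in linear exponential space is decided by a program which needs at
most `t n` steps on the inputs of length `n`, where `t n` is linear exponential for the lengths `n` not
in `S`. -/
def FastOff (A : Oracle) (S : Set ℕ) : Prop :=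
  ∀ B : Set (List Bool), EXPSPACE A B →
    ∃ t : ℕ → ℕ, TimeIn A t B ∧ ∃ c : ℕ, ∀ n ∉ S, t n ≤ 2 ^ (c * (n + 1))

/-- `S` contains arbitrarily long stretches `[n, C n]`. -/
def LongStretches (S : Set ℕ) : Prop :=
  ∀ C : ℕ, ∃ n ≥ 1, ∀ m, n ≤ m → m ≤ C * n → m ∈ S

end Pool.Agent.L0h33.SG
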