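import Pool.Agent.L0h33.SG.Defs

/-!
# A function with large values on long stretches only
-/

set_option autoImplicit false

namespace Pool.Agent.L0h33.SG

theorem LongStretches.far {S : Set ℕ} (hS : LongStretches S) (C b : ℕ) :
    ∃ n, b ≤ n ∧ 1 ≤ n ∧ ∀ m, n ≤ m → m ≤ C * n → m ∈ S := by
  obtain ⟨n, hn, h⟩ := hS (C * (b + 1))
  refine ⟨(b + 1) * n, ?_, ?_, fun m h1 h2 => h m ?_ ?_⟩
  · calc b ≤ b + 1 := by omega
      _ = (b + 1) * 1 := by ring
      _ ≤ (b + 1) * n := Nat.mul_le_mul_left _ hn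
  · exact Nat.mul_pos (by omega) hn
  · refine le_trans ?_ h1
    calc n = 1 * n := by ring
      _ ≤ (b + 1) * n := Nat.mul_le_mul_right _ (by omega)
  · calc m ≤ C * ((b + 1) * n) := h2
      _ = C * (b + 1) * n := by ring

/-- The sequence of the beginnings of the stretches. -/
theorem exists_seq {S : Set ℕ} (hS : LongStretches S) :
    ∃ a : ℕ → ℕ, (∀ k, 1 ≤ a k) ∧ (∀ k m, a k ≤ m → m ≤ (k + 2) ^ 4 * a k → m ∈ S) ∧
      ∀ k, 2 * a k ≤ a (k + 1) := by
  choose f hf using fun (C b : ℕ) => hS.far C b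
  let a : ℕ → ℕ := fun k => Nat.rec (f (2 ^ 4) 0) (fun k x => f ((k + 1 + 2) ^ 4) (2 * x)) k
  have ha : ∀ k, a (k + 1) = f ((k + 1 + 2) ^ 4) (2 * a k) := fun k => rfl
  have h1 : ∀ k, ∃ b, a k = f ((k + 2) ^ 4) b := by
    intro k
    cases k with
    | zero => exact ⟨0, rfl⟩
    | succ k => exact ⟨_, rfl⟩
  refine ⟨a, fun k => ?_, fun k m => ?_, fun k => ?_⟩
  · obtain ⟨b, hb⟩ := h1 k
    rw [hb]
    exact (hf _ _).2.1
  · obtain ⟨b, hb⟩ := h1 k
    rw [hb]
    exact (hf _ _).2.2 m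
  · rw [ha]
    exact (hf _ _).1

section
variable (a : ℕ → ℕ)

/-- The places of the jumps. -/
def mk (k : ℕ) : ℕ := (k + 1) * a k

/-- The sizes of the jumps. -/
def jp (k : ℕ) : ℕ := (k + 1) * mk a k

/-- The sum of the jumps up to `m`. -/
def jsum (m : ℕ) : ℕ := ∑ k ∈ Finset.range m, if mk a k ≤ m then jp a k else 0

/-- The function with the jumps. -/
def hf (m : ℕ) : ℕ := m + jsum a m

variable {a}

theorem lt_mk (h1 : ∀ k, 1 ≤ a k) (k : ℕ) : k < mk a k := by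
  unfold mk
  calc k < k + 1 := by omega
    _ = (k + 1) * 1 := by ring
    _ ≤ (k + 1) * a k := Nat.mul_le_mul_left _ (h1 k)

theorem mk_lt_succ (h1 : ∀ k, 1 ≤ a k) (h2 : ∀ k, 2 * a k ≤ a (k + 1)) (k : ℕ) :
    mk a k < mk a (k + 1) := by
  unfold mk
  have := h1 k
  have := h2 k
  nlinarith

theorem mk_strictMono (h1 : ∀ k, 1 ≤ a k) (h2 : ∀ k, 2 * a k ≤ a (k + 1)) :
    StrictMono (mk a) := strictMono_nat_of_lt_succ (mk_lt_succ h1 h2)

theorem two_jp (h2 : ∀ k, 2 * a k ≤ a (k + 1)) (k : ℕ) : 2 * jp a k ≤ jp a (k + 1) := by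
  unfold jp mk
  have := h2 k
  calc 2 * ((k + 1) * ((k + 1) * a k)) = (k + 1) * ((k + 1) * (2 * a k)) := by ring
    _ ≤ (k + 1) * ((k + 1) * a (k + 1)) := by gcongr
    _ ≤ (k + 1 + 1) * ((k + 1 + 1) * a (k + 1)) := by gcongr <;> omega

theorem jp_mono (h2 : ∀ k, 2 * a k ≤ a (k + 1)) : Monotone (jp a) :=
  monotone_nat_of_le_succ fun k => by have := two_jp h2 k; omega

theorem sum_jp (h2 : ∀ k, 2 * a k ≤ a (k + 1)) (i : ℕ) :
    ∑ k ∈ Finset.range (i + 1), jp a k ≤ 2 * jp a i := by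
  induction i with
  | zero => simp only [zero_add, Finset.range_one, Finset.sum_singleton]; omega
  | succ i ih =>
    rw [Finset.sum_range_succ]
    have := two_jp h2 i
    omega

theorem jsum_mono (h1 : ∀ k, 1 ≤ a k) {m m' : ℕ} (h : m ≤ m') : jsum a m ≤ jsum a m' := by
  unfold jsum
  calc _ ≤ ∑ k ∈ Finset.range m, if mk a k ≤ m' then jp a k else 0 := by
        refine Finset.sum_le_sum fun k _ => ?_
        split_ifs with h3 h4 h4
        · exact le_rfl
        · exact absurd (h3.trans h) h4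
        · exact Nat.zero_le _
        · exact le_rfl
    _ ≤ _ := Finset.sum_le_sum_of_subset (Finset.range_mono h)

theorem hf_strictMono (h1 : ∀ k, 1 ≤ a k) : StrictMono (hf a) := by
  intro m m' h
  unfold hf
  have := jsum_mono h1 h.le
  omega

theorem jp_le_jsum (h1 : ∀ k, 1 ≤ a k) {k m : ℕ} (h : mk a k ≤ m) : jp a k ≤ jsum a m := by
  unfold jsum
  have h3 : (if mk a k ≤ m then jp a k else 0) = jp a k := if_pos h
  rw [← h3]
  refine Finset.single_le_sum (f := fun k => if mk a k ≤ m then jp a k else 0)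
    (fun _ _ => Nat.zero_le _) (Finset.mem_range.2 ?_)
  exact lt_of_lt_of_le (lt_mk h1 k) h

theorem jsum_le (h1 : ∀ k, 1 ≤ a k) (h2 : ∀ k, 2 * a k ≤ a (k + 1)) (m : ℕ) :
    jsum a m = 0 ∨ ∃ i, mk a i ≤ m ∧ jsum a m ≤ 2 * jp a i := by
  by_cases h : ∃ k, mk a k ≤ m
  · right
    obtain ⟨k, hk⟩ := h
    have hb : ∀ k, mk a k ≤ m → k ≤ m := fun k hk => ((lt_mk h1 k).trans_le hk).le
    classical
    have hex : ∃ i ≤ m, mk a i ≤ m ∧ ∀ k ≤ m, mk a k ≤ m → k ≤ i := by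
      have hne : ((Finset.range (m + 1)).filter fun k => mk a k ≤ m).Nonempty :=
        ⟨k, Finset.mem_filter.2 ⟨Finset.mem_range.2 (by have := hb k hk; omega), hk⟩⟩
      refine ⟨_, ?_, (Finset.mem_filter.1 (Finset.max'_mem _ hne)).2, fun k h3 h4 => ?_⟩
      · have := Finset.mem_range.1 (Finset.mem_filter.1 (Finset.max'_mem _ hne)).1
        omega
      · exact Finset.le_max' _ k (Finset.mem_filter.2 ⟨Finset.mem_range.2 (by omega), h4⟩)
    obtain ⟨i, _, h3, h4⟩ := hex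
    refine ⟨i, h3, le_trans ?_ (sum_jp h2 i)⟩
    unfold jsum
    rw [← Finset.sum_filter]
    refine Finset.sum_le_sum_of_subset fun k hk => ?_
    rw [Finset.mem_filter, Finset.mem_range] at hk
    rw [Finset.mem_range]
    have := h4 k (by omega) hk.2
    omega
  · left
    unfold jsum
    refine Finset.sum_eq_zero fun k _ => if_neg fun h3 => h ⟨k, h3⟩

theorem hf_le (h1 : ∀ k, 1 ≤ a k) (h2 : ∀ k, 2 * a k ≤ a (k + 1)) (m : ℕ) :
    hf a m ≤ (m + 2) ^ 3 := by
  unfold hf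
  have h3 : jsum a m ≤ 2 * (m * m) := by
    rcases jsum_le h1 h2 m with h | ⟨i, hi, h⟩
    · rw [h]; exact Nat.zero_le _
    · refine h.trans (Nat.mul_le_mul_left _ ?_)
      unfold jp
      have := lt_mk h1 i
      exact Nat.mul_le_mul (by omega) hi
  have e : (m + 2) ^ 3 = m * (m * m) + 6 * (m * m) + 12 * m + 8 := by ring
  rw [e]
  nlinarith [Nat.zero_le (m * (m * m))]

/-- Outside `S` the sum of the jumps is small. -/
theorem jsum_small {S : Set ℕ} (h1 : ∀ k, 1 ≤ a k) (h2 : ∀ k, 2 * a k ≤ a (k + 1))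
    (hS : ∀ k m, a k ≤ m → m ≤ (k + 2) ^ 4 * a k → m ∈ S) (c K e : ℕ) {n : ℕ} (hn : n ∉ S) :
    jsum a (c * (n + 1) + K) ≤ 2 * jp a (c + K + e) ∨ e * jsum a (c * (n + 1) + K) ≤ n := by
  obtain ⟨m, hm⟩ : ∃ m, m = c * (n + 1) + K := ⟨_, rfl⟩
  rw [← hm]
  rcases jsum_le h1 h2 m with h | ⟨i, hi, h⟩
  · left; rw [h]; exact Nat.zero_le _
  by_cases hi0 : i ≤ c + K + e
  · left
    exact h.trans (Nat.mul_le_mul_left _ (jp_mono h2 hi0))
  right
  push Not at hi0
  have hai := h1 i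
  have h3 : a i ≤ n := by
    by_contra h4
    push Not at h4
    have h5 : m ≤ (c + K) * a i := by
      rw [hm, add_mul]
      have h6 : c * (n + 1) ≤ c * a i := Nat.mul_le_mul_left _ (by omega)
      have h7 : K * 1 ≤ K * a i := Nat.mul_le_mul_left _ hai
      omega
    have h6 : (c + K) * a i < mk a i := by
      unfold mk
      exact Nat.mul_lt_mul_of_pos_right (by omega) (by omega)
    omega
  have h4 : (i + 2) ^ 4 * a i < n := by
    by_contra h5
    push Not at h5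
    exact hn (hS i n h3 h5)
  have h5 : 2 * jp a i * (i + 2) ≤ (i + 2) ^ 4 * a i := by
    unfold jp mk
    have e1 : (i + 2) ^ 4 * a i = (i + 2) * ((i + 2) * (i + 2)) * a i * (i + 2) := by ring
    have e2 : 2 * ((i + 1) * ((i + 1) * a i)) * (i + 2) =
        2 * ((i + 1) * (i + 1)) * a i * (i + 2) := by ring
    rw [e1, e2]
    refine Nat.mul_le_mul_right _ (Nat.mul_le_mul_right _ ?_)
    exact Nat.mul_le_mul (by omega) (Nat.mul_le_mul (by omega) (by omega))
  calc e * jsum a m ≤ (i + 2) * (2 * jp a i) := Nat.mul_le_mul (by omega) h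
    _ = 2 * jp a i * (i + 2) := by ring
    _ ≤ _ := h5.trans h4.le

end

end Pool.Agent.L0h33.SG
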