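import Pool.Agent.L0h33.SG.Base
import Pool.Agent.L0h33.SG.Seq

/-!
# The oracle for sets of lengths with long stretches
-/

set_option autoImplicit false

namespace Pool.Agent.L0h33.SG

open Pool.Agent.L0h34.OM Pool.Agent.L0h34.RO Pool.Agent.L0h58.EE Pool.Agent.L0h58.SP

theorem pow_absorb (k b : ℕ) : ∃ c : ℕ, ∀ n : ℕ, (n + 2) ^ k + b ≤ n ^ c + c := by
  obtain ⟨N, hN⟩ : ∃ N, N = 3 ^ k := ⟨_, rfl⟩
  refine ⟨2 * k + N + b, fun n => ?_⟩
  rcases Nat.lt_or_ge n 2 with hn | hn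
  · have h1 : (n + 2) ^ k ≤ N := hN ▸ Nat.pow_le_pow_left (by omega) k
    generalize (n + 2) ^ k = X at h1 ⊢
    generalize n ^ (2 * k + N + b) = Y
    omega
  · have h1 : (n + 2) ^ k ≤ (n * n) ^ k := Nat.pow_le_pow_left (by nlinarith) k
    have h2 : (n * n) ^ k = n ^ (2 * k) := by rw [← pow_two, ← pow_mul]
    have h3 : n ^ (2 * k) ≤ n ^ (2 * k + N + b) := Nat.pow_le_pow_right (by omega) (by omega)
    rw [h2] at h1
    generalize (n + 2) ^ k = X at h1 ⊢
    generalize n ^ (2 * k + N + b) = Y at h3 ⊢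
    generalize n ^ (2 * k) = Z at h1 h3
    omega

theorem UTime.up {A : Oracle} {h : ℕ → ℕ} {B : Set (List Bool)} (hB : UTime A h B)
    (hh : ∀ n, h n ≤ (n + 2) ^ 3) : UP A B := by
  obtain ⟨u, c, h1, h2⟩ := hB
  obtain ⟨c', hc'⟩ := pow_absorb (3 * c) c
  refine ⟨u, c', fun x w => ?_, h2⟩
  obtain ⟨s, t, τ, h3, h4⟩ := h1 x w
  refine ⟨s, t, τ, h3, h4.trans (le_trans ?_ (hc' x.length))⟩
  rw [pow_mul]
  exact Nat.add_le_add_right (Nat.pow_le_pow_left (hh _) c) c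

theorem large_pow' {k : ℕ} (hk : 9 ≤ k) : 32 * k < 2 ^ k := by
  induction k, hk using Nat.le_induction with
  | base => norm_num
  | succ k hk ih => rw [pow_succ]; omega

/-- A program which is correct on all inputs of a large even length needs much time. -/
theorem not_all {A : Oracle} {L : Set (List Bool)} {u : Prog} {T m : ℕ} (hm : 9 ≤ m)
    (h : ({x : List Bool | x.length = 2 * m ∧ Correct A L u T [] x}.ncard : ℝ) ≤
      2 ^ (2 * m) / 2 + 2 * √((2 * m : ℕ) * 2 ^ m * 2 ^ (2 * m))) :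
    ∃ x : List Bool, x.length = 2 * m ∧ ¬ Correct A L u T [] x := by
  by_contra hcon
  push Not at hcon
  have h4 : {x : List Bool | x.length = 2 * m ∧ Correct A L u T [] x} =
      {x : List Bool | x.length = 2 * m} := by
    ext x
    simp only [Set.mem_ofPred_eq, and_iff_left_iff_imp]
    exact hcon x
  rw [h4, ncard_length] at h
  have h5 : ((2 ^ (2 * m) : ℕ) : ℝ) = 2 ^ (2 * m) := by push_cast; rfl
  rw [h5] at h
  have h6 : (2 : ℝ) ^ (2 * m) / 4 ≤ √((2 * m : ℕ) * 2 ^ m * 2 ^ (2 * m)) := by linarith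
  have h7 : ((2 : ℝ) ^ (2 * m) / 4) ^ 2 ≤ (2 * m : ℕ) * 2 ^ m * 2 ^ (2 * m) := by
    calc ((2 : ℝ) ^ (2 * m) / 4) ^ 2 ≤ √((2 * m : ℕ) * 2 ^ m * 2 ^ (2 * m)) ^ 2 := by gcongr
      _ = _ := Real.sq_sqrt (by positivity)
  have h8 : (2 : ℝ) ^ (2 * m) = 2 ^ m * 2 ^ m := by rw [← pow_add]; congr 1; omega
  have h9 : (2 : ℝ) ^ m ≤ 32 * m := by
    have h10 : (0 : ℝ) < 2 ^ m * 2 ^ (2 * m) := by positivity
    refine le_of_mul_le_mul_right ?_ h10
    push_cast at h7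
    calc (2 : ℝ) ^ m * (2 ^ m * 2 ^ (2 * m)) = 16 * ((2 : ℝ) ^ (2 * m) / 4) ^ 2 := by rw [h8]; ring
      _ ≤ 16 * (2 * m * 2 ^ m * 2 ^ (2 * m)) := by linarith
      _ = 32 * m * (2 ^ m * 2 ^ (2 * m)) := by ring
  have h10 : 2 ^ m ≤ 32 * m := by exact_mod_cast h9
  have h11 := large_pow' hm
  omega

theorem exp_bound (m k : ℕ) : m + k < 2 ^ (m + k) := Nat.lt_two_pow_self

/-- The case of long stretches. -/
theorem long_case {S : Set ℕ} (hS : LongStretches S) :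
    ∃ (A : Oracle) (L : Set (List Bool)),
      (∀ c ≥ 1, ∀ B : Set (List Bool), SpaceIn A (fun n => 2 ^ (c * (n + 1))) B →
        ∃ t : ℕ → ℕ, TimeIn A t B ∧
          ∀ e ≥ 1, ∃ n₀, ∀ n ≥ n₀, n ∉ S → t n ≤ 2 ^ (c * n + n / e)) ∧
      UP A L ∧ UP A Lᶜ ∧ EXPSPACE A L ∧ ¬ EXPTIME A L ∧
      ∃ N : Set ℕ, N.Infinite ∧ N ⊆ S ∧ ∀ (c : ℕ) (u : Prog), ∃ n₀ : ℕ, ∀ n ∈ N, n₀ ≤ n →
        ∀ a : List Bool, a.length ≤ 2 ^ (n / 2) →
          ({x : List Bool | x.length = n ∧ Correct A L u (2 ^ (c * n)) a x}.ncard : ℝ) ≤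
            2 ^ n / 2 + 2 * √(n * 2 ^ (n / 2) * 2 ^ n) := by
  obtain ⟨a, h1, h3, h2⟩ := exists_seq hS
  have hh : StrictMono (hf a) := hf_strictMono h1
  have hmk : StrictMono (mk a) := mk_strictMono h1 h2
  obtain ⟨R, hR⟩ := exists_hard hh
  have hub := hf_le h1 h2
  have hinf : (Set.range fun k => 2 * mk a k).Infinite := by
    refine Set.infinite_range_of_injective fun k k' e => hmk.injective ?_
    omega
  have hsubS : (Set.range fun k => 2 * mk a k) ⊆ S := by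
    rintro _ ⟨k, rfl⟩
    refine h3 k _ ?_ ?_
    · simp only
      unfold mk
      have : 1 * a k ≤ (k + 1) * a k := Nat.mul_le_mul_right _ (by omega)
      omega
    · simp only
      unfold mk
      rw [← mul_assoc]
      refine Nat.mul_le_mul_right _ ?_
      have e : (k + 2) ^ 4 = (k + 2) * (k + 2) * ((k + 2) * (k + 2)) := by ring
      rw [e]
      have f1 : 1 ≤ (k + 2) * (k + 2) := Nat.mul_pos (by omega) (by omega)
      have f2 : 2 * (k + 1) ≤ (k + 2) * (k + 2) := Nat.mul_le_mul (by omega) (by omega)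
      calc 2 * (k + 1) ≤ (k + 2) * (k + 2) * 1 := by rw [mul_one]; exact f2
        _ ≤ _ := Nat.mul_le_mul_left _ f1
  have hmain : ∀ (c : ℕ) (u : Prog), ∃ n₀ : ℕ, ∀ n ∈ (Set.range fun k => 2 * mk a k), n₀ ≤ n →
        ∀ b : List Bool, b.length ≤ 2 ^ (n / 2) →
          ({x : List Bool | x.length = n ∧ Correct (orcH (hf a) R) {x | hbH (hf a) R x = true}
            u (2 ^ (c * n)) b x}.ncard : ℝ) ≤
            2 ^ n / 2 + 2 * √(n * 2 ^ (n / 2) * 2 ^ n) := by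
    intro c u
    obtain ⟨n₁, hn₁⟩ := hR u
    refine ⟨2 * mk a (n₁ + 2 * c + 9), ?_⟩
    rintro _ ⟨k, rfl⟩ hkn b hb
    simp only at hkn hb ⊢
    have hk : n₁ + 2 * c + 9 ≤ k := hmk.le_iff_le.1 (by omega)
    have hkm := lt_mk h1 k
    obtain ⟨m, hm⟩ : ∃ m, m = mk a k := ⟨_, rfl⟩
    rw [← hm] at hkm hb ⊢
    have e2 : 2 * m / 2 = m := by omega
    rw [e2] at hb ⊢
    refine le_trans ?_ (hn₁ (2 * m) (by omega) m (by omega) b hb)
    have hsub : {x : List Bool | x.length = 2 * m ∧ Correct (orcH (hf a) R)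
        {x | hbH (hf a) R x = true} u (2 ^ (c * (2 * m))) b x} ⊆
        {x : List Bool | x.length = 2 * m ∧ Correct (orcH (hf a) R)
        {x | hbH (hf a) R x = true} u (2 ^ (hf a m)) b x} := by
      rintro x ⟨hx, s, t, τ, h5, h6, h7⟩
      refine ⟨hx, s, t, τ, h5, h6.trans (Nat.pow_le_pow_right (by norm_num) ?_), h7⟩
      have h8 := jp_le_jsum h1 (k := k) (m := m) hm.ge
      unfold hf
      have h9 : c * (2 * m) ≤ jp a k := by
        unfold jp
        rw [← hm]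
        calc c * (2 * m) = (c * 2) * m := by ring
          _ ≤ (k + 1) * m := Nat.mul_le_mul_right _ (by omega)
      omega
    have hfin : {x : List Bool | x.length = 2 * m ∧ Correct (orcH (hf a) R)
        {x | hbH (hf a) R x = true} u (2 ^ (hf a m)) b x}.Finite :=
      (List.finite_length_eq Bool (2 * m)).subset fun x hx => hx.1
    exact_mod_cast Set.ncard_le_ncard hsub hfin
  refine ⟨orcH (hf a) R, {x | hbH (hf a) R x = true}, ?_, (utime_aux hh R true).up hub, ?_, ?_, ?_,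
    _, hinf, hsubS, hmain⟩
  · intro c hc B hB
    obtain ⟨K, hK⟩ := space_time hh hc hB
    refine ⟨_, hK, fun e he => ?_⟩
    obtain ⟨J, hJ⟩ : ∃ J, J = 2 * jp a (c + K + 2 * e) := ⟨_, rfl⟩
    refine ⟨2 * e * (c + K + J + 9), fun n hn hnS => ?_⟩
    have h5 := jsum_small h1 h2 h3 c K (2 * e) hnS
    rw [← hJ] at h5
    have h6 : 200 * 2 ^ hf a (c * (n + 1) + K) ≤ 2 ^ (8 + hf a (c * (n + 1) + K)) := by
      rw [pow_add]
      exact Nat.mul_le_mul_right _ (by norm_num)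
    refine h6.trans (Nat.pow_le_pow_right (by norm_num) ?_)
    unfold hf
    obtain ⟨P, hP⟩ : ∃ P, P = jsum a (c * (n + 1) + K) := ⟨_, rfl⟩
    rw [← hP] at h5 ⊢
    have h7 : c * (n + 1) = c * n + c := by ring
    have h8 : c + K + J + 9 ≤ n / (2 * e) := by
      rw [Nat.le_div_iff_mul_le (by omega)]
      calc (c + K + J + 9) * (2 * e) = 2 * e * (c + K + J + 9) := by ring
        _ ≤ n := hn
    have h9 : P ≤ J + n / (2 * e) := by
      rcases h5 with h5 | h5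
      · omega
      · have : P ≤ n / (2 * e) := by
          rw [Nat.le_div_iff_mul_le (by omega)]
          calc P * (2 * e) = 2 * e * P := by ring
            _ ≤ n := h5
        omega
    have h10 : n / (2 * e) + n / (2 * e) ≤ n / e := by
      rw [Nat.le_div_iff_mul_le (by omega)]
      have := Nat.div_mul_le_self n (2 * e)
      calc (n / (2 * e) + n / (2 * e)) * e = n / (2 * e) * (2 * e) := by ring
        _ ≤ n := this
    omega
  · have e1 : {x | hbH (hf a) R x = true}ᶜ = {x | hbH (hf a) R x = false} := by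
      ext x
      simp
    rw [e1]
    exact (utime_aux hh R false).up hub
  · obtain ⟨u, hu⟩ := space_aux hh R
    refine ⟨15, u, fun x => ?_⟩
    obtain ⟨t, τ, h5, h6⟩ := hu x
    refine ⟨t, τ, h5.mono ?_, h6⟩
    have h7 := hub x.length
    obtain ⟨n, hn⟩ : ∃ n, n = x.length := ⟨_, rfl⟩
    rw [← hn] at h7 ⊢
    simp only
    have h8 : n + 2 ≤ 2 ^ (n + 1) := by
      have : n + 1 < 2 ^ (n + 1) := Nat.lt_two_pow_self
      omega
    have h9 : (n + 2) ^ 3 ≤ 2 ^ (3 * (n + 1)) := by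
      calc (n + 2) ^ 3 ≤ (2 ^ (n + 1)) ^ 3 := Nat.pow_le_pow_left h8 3
        _ = 2 ^ (3 * (n + 1)) := by rw [← pow_mul]; congr 1; ring
    have h10 : 1 ≤ 2 ^ (3 * (n + 1)) := Nat.one_le_two_pow
    calc 100 * (hf a n + 1) ^ 2 ≤ 2 ^ 7 * (2 * 2 ^ (3 * (n + 1))) ^ 2 :=
          Nat.mul_le_mul (by norm_num) (Nat.pow_le_pow_left (by omega) 2)
      _ = 2 ^ (9 + 6 * (n + 1)) := by
          rw [mul_pow, ← pow_mul, pow_add]
          ring_nf
      _ ≤ 2 ^ (15 * (n + 1)) := Nat.pow_le_pow_right (by norm_num) (by omega)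
  · rintro ⟨c, u, hu⟩
    obtain ⟨n₁, h5⟩ := hmain (2 * c) u
    obtain ⟨k, hk⟩ : ∃ k, k = n₁ + 20 := ⟨_, rfl⟩
    have hkm := lt_mk h1 k
    obtain ⟨m, hm⟩ : ∃ m, m = mk a k := ⟨_, rfl⟩
    rw [← hm] at hkm
    have h6 := h5 (2 * m) ⟨k, by rw [hm]⟩ (by omega) [] (by simp)
    rw [show 2 * m / 2 = m by omega] at h6
    obtain ⟨x, hx, h7⟩ := not_all (by omega) h6
    apply h7
    obtain ⟨s, t, τ, h8, h9, h10⟩ := hu x
    have e : init2 x [] = init x := by
      funext r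
      unfold init2 init
      split_ifs <;> rfl
    refine ⟨s, t, τ, by rw [e]; exact h8, h9.trans (Nat.pow_le_pow_right (by norm_num) ?_), h10⟩
    rw [hx]
    nlinarith

end Pool.Agent.L0h33.SG
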