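import Pool.Agent.L0h33.SG.Clk2

/-!
# Trying all paddings with a budget
-/

set_option autoImplicit false

namespace Pool.Agent.L0h33.SG

open Pool.Agent.L0h34.OM Function

variable {G : Oracle} {s K N Λ W : ℕ}

theorem len_space {u : Prog} {σ τ : Store} {t : ℕ} (h : Run G s u σ t τ) :
    (∀ r, (σ r).length ≤ s) → ∀ r, (τ r).length ≤ s := by
  induction h with
  | nop σ => exact id
  | put r b σ h =>
    intro hσ q
    by_cases hq : q = r
    · subst hq
      rw [update_self, List.length_append]
      simpa using h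
    · rw [update_of_ne hq]; exact hσ q
  | copy r q σ h =>
    intro hσ p
    by_cases hq : p = q
    · subst hq; rw [update_self]; exact h
    · rw [update_of_ne hq]; exact hσ p
  | ask r q σ h h' =>
    intro hσ p
    by_cases hq : p = q
    · subst hq; rw [update_self]; simpa using h'
    · rw [update_of_ne hq]; exact hσ p
  | seq _ _ ih1 ih2 => exact fun hσ => ih2 (ih1 hσ)
  | take_nil _ _ ih => exact ih
  | @take_false r _ _ _ σ _ _ l h0 _ ih =>
    intro hσ
    refine ih fun q => ?_
    by_cases hq : q = r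
    · subst hq
      have := hσ q
      rw [h0, List.length_cons] at this
      rw [update_self]
      omega
    · rw [update_of_ne hq]; exact hσ q
  | @take_true r _ _ _ σ _ _ l h0 _ ih =>
    intro hσ
    refine ih fun q => ?_
    by_cases hq : q = r
    · subst hq
      have := hσ q
      rw [h0, List.length_cons] at this
      rw [update_self]
      omega
    · rw [update_of_ne hq]; exact hσ q
  | loop_nil _ => exact id
  | loop_cons _ _ _ ih1 ih2 => exact fun hσ => ih2 (ih1 hσ)

theorem Reach.len {u : Prog} {σ τ : Store} {T : ℕ} (h : Reach G s u σ T τ)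
    (hσ : ∀ r, (σ r).length ≤ s) : ∀ r, (τ r).length ≤ s := by
  obtain ⟨t, _, h⟩ := h
  exact len_space h hσ

/-- Empty the registers below `m`. -/
def clrs : ℕ → Prog
  | 0 => .nop
  | m + 1 => .seq (clrs m) (.clear m)

theorem reach_clrs (σ : Store) (hσ : ∀ r, (σ r).length ≤ s) (m : ℕ) :
    Reach G s (clrs m) σ (m * (3 * s + 1) + 1) (fun r => if r < m then [] else σ r) := by
  induction m with
  | zero =>
    have : (fun r => if r < 0 then [] else σ r) = σ := by
      funext r
      rw [if_neg (by omega)]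
    rw [this]
    exact Reach.nop.mono (by omega)
  | succ m ih =>
    have h1 := Reach.clear (G := G) (s := s) (fun r => if r < m then [] else σ r) m
    have h2 : update (fun r => if r < m then [] else σ r) m [] =
        fun r => if r < m + 1 then [] else σ r := by
      funext r
      by_cases hr : r = m
      · subst hr
        rw [update_self, if_pos (by omega)]
      · rw [update_of_ne hr]
        by_cases hr2 : r < m
        · rw [if_pos hr2, if_pos (by omega)]
        · rw [if_neg hr2, if_neg (by omega)]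
    rw [h2] at h1
    simp only [lt_self_iff_false, if_false] at h1
    refine (ih.seq h1).mono ?_
    have := hσ m
    have e : (m + 1) * (3 * s + 1) = m * (3 * s + 1) + (3 * s + 1) := by ring
    omega

/-- Store the result and stop. -/
def succP (K N : ℕ) : Prog := .seq (.copy 0 (K + 2 + N + 4)) (.clear (K + 2 + N + 2))

/-- Try the next padding. -/
def body (K N : ℕ) (u : Prog) : Prog :=
  .seq (clrs (K + 2)) (.seq (.copy (K + 2 + N + 3) 0) (.seq (.put 0 true)
    (.seq (.app (K + 2 + N) 0 (K + 2 + N + 5)) (.seq (.copy (K + 2 + N + 1) K)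
      (.seq (clk K 0 u) (.seq (.take K .nop (succP K N) (succP K N))
        (.put (K + 2 + N + 3) false)))))))

/-- The registers between two trials. -/
structure St (K N : ℕ) (x : List Bool) (β j s : ℕ) (σ : Store) : Prop where
  hX : σ (K + 2 + N) = x
  hB : (σ (K + 2 + N + 1)).length = β
  hP : σ (K + 2 + N + 3) = List.replicate j false
  hD : σ (K + 2 + N + 5) = []
  hC : Clean K 0 N σ
  hs : ∀ r, (σ r).length ≤ s

/-- The time for one trial. -/
def Tb (K z β s W : ℕ) : ℕ := (K + 2) * (3 * s + 1) + 20 * s + β * W + 8 * z + 20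

theorem reach_body {u : Prog} {x : List Bool} {β j t s0 : ℕ} {τ σ : Store}
    (hu : Run G s0 u (init (List.replicate j false ++ true :: x)) t τ) (hB : Below K u)
    (hK : 0 < K) (hN : dp u ≤ N) (hσ : St K N x β j (Λ + 1) σ)
    (hΛ : j + 1 + x.length + β ≤ Λ) (hW : Λ + 8 * sz u + 20 ≤ W) :
    ∃ σ', Reach G (Λ + 1) (body K N u) σ (Tb K (sz u) β (Λ + 1) W) σ' ∧
      St K N x β (j + 1) (Λ + 1) σ' ∧
      ((σ' (K + 2 + N + 2) = σ (K + 2 + N + 2) ∧ β ≤ t) ∨
        (σ' (K + 2 + N + 2) = [] ∧ σ' (K + 2 + N + 4) = τ 0)) := by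
  obtain ⟨hX, hBu, hP, hD, hC, hs⟩ := hσ
  obtain ⟨Z, hZ⟩ : ∃ Z, Z = K + 2 + N := ⟨_, rfl⟩
  rw [← hZ] at hX hBu hP hD
  unfold body
  rw [← hZ]
  -- clear
  have h1 := reach_clrs (G := G) σ hs (K + 2)
  obtain ⟨σ1, hσ1⟩ : ∃ σ1 : Store, σ1 = fun r => if r < K + 2 then [] else σ r := ⟨_, rfl⟩
  rw [← hσ1] at h1
  have a1 : ∀ q, K + 2 ≤ q → σ1 q = σ q := fun q hq => by
    rw [hσ1]; exact if_neg (by omega)
  have b1 : ∀ q, q < K + 2 → σ1 q = [] := fun q hq => by
    rw [hσ1]; exact if_pos hq
  -- copy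
  have e2 : σ1 (Z + 3) = List.replicate j false := by rw [a1 _ (by omega), hP]
  have h2 : Reach G (Λ + 1) (.copy (Z + 3) 0) σ1 (j + 1) (update σ1 0 (List.replicate j false)) := by
    have := Reach.copy (G := G) (s := Λ + 1) (r := Z + 3) (q := 0) (σ := σ1)
      (by rw [e2, List.length_replicate]; omega)
    rwa [e2, List.length_replicate] at this
  -- put
  have h3 : Reach G (Λ + 1) (.put 0 true) (update σ1 0 (List.replicate j false)) 1
      (update σ1 0 (List.replicate j false ++ [true])) := by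
    have := Reach.put (G := G) (s := Λ + 1) (r := 0)
      (σ := update σ1 0 (List.replicate j false)) true
      (by rw [update_self, List.length_replicate]; omega)
    rwa [update_self, update_idem] at this
  -- app
  obtain ⟨y, hy⟩ : ∃ y, y = List.replicate j false ++ true :: x := ⟨_, rfl⟩
  have hylen : y.length = j + 1 + x.length := by
    rw [hy, List.length_append, List.length_replicate, List.length_cons]; omega
  have h4 : Reach G (Λ + 1) (.app Z 0 (Z + 5)) (update σ1 0 (List.replicate j false ++ [true]))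
      (4 * x.length + 2) (update (update σ1 0 y) (Z + 5) []) := by
    have e : update σ1 0 (List.replicate j false ++ [true]) Z = x := by
      rw [update_of_ne (by omega), a1 _ (by omega), hX]
    have := Reach.app (G := G) (s := Λ + 1) (r := Z) (q := 0) (d := Z + 5)
      (update σ1 0 (List.replicate j false ++ [true])) (by omega)
      (by rw [e, update_self, List.length_append, List.length_replicate]
          simp only [List.length_cons, List.length_nil]
          omega)
    rw [e, update_self, update_idem] at this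
    rw [hy]
    simpa using this
  -- copy
  obtain ⟨σ4, hσ4⟩ : ∃ σ4, σ4 = update (update σ1 0 y) (Z + 5) [] := ⟨_, rfl⟩
  have a4 : ∀ q, K + 2 ≤ q → σ4 q = σ q := by
    intro q hq
    rw [hσ4]
    by_cases hq5 : q = Z + 5
    · rw [hq5, update_self, hD]
    · rw [update_of_ne hq5, update_of_ne (by omega), a1 q hq]
  have b4 : ∀ q, q < K + 2 → q ≠ 0 → σ4 q = [] := by
    intro q hq hq0
    rw [hσ4, update_of_ne (by omega), update_of_ne hq0, b1 q hq]
  have c4 : σ4 0 = y := by rw [hσ4, update_of_ne (by omega), update_self]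
  rw [← hσ4] at h4
  have h5 : Reach G (Λ + 1) (.copy (Z + 1) K) σ4 (β + 1) (update σ4 K (σ (Z + 1))) := by
    have := Reach.copy (G := G) (s := Λ + 1) (r := Z + 1) (q := K) (σ := σ4)
      (by rw [a4 _ (by omega), hBu]; omega)
    rwa [a4 _ (by omega), hBu] at this
  obtain ⟨σ5, hσ5⟩ : ∃ σ5, σ5 = update σ4 K (σ (Z + 1)) := ⟨_, rfl⟩
  rw [← hσ5] at h5
  have a5 : ∀ q, K + 2 ≤ q → σ5 q = σ q := by
    intro q hq
    rw [hσ5, update_of_ne (by omega), a4 q hq]
  have K5 : (σ5 K).length = β := by rw [hσ5, update_self, hBu]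
  have s5 : ∀ r < K, σ5 r = init y r := by
    intro r hr
    rw [hσ5, update_of_ne (by omega)]
    unfold init
    by_cases hr0 : r = 0
    · rw [hr0, c4, if_pos rfl]
    · rw [if_neg hr0, b4 r (by omega) hr0]
  have i5 : ∀ r < K, (σ5 r).length + (σ5 K).length ≤ Λ := by
    intro r hr
    rw [s5 r hr, K5]
    unfold init
    split_ifs
    · omega
    · simp only [List.length_nil]; omega
  rw [← hy] at hu
  obtain ⟨T6, σ6, h6, f6, g6, g6', g6'', t6, r6⟩ := clk_run (n := N) (Λ := Λ) (W := W) hu 0 σ5 hB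
    (by omega) (fun j' h1 h2 => by rw [a5 _ (by omega)]; exact hC j' h1 h2) s5 i5
    (by rw [K5]; omega) hW
  have a6 : ∀ q, K + 2 ≤ q → σ6 q = σ q := by
    intro q hq
    obtain ⟨i, rfl⟩ := Nat.exists_eq_add_of_le hq
    rw [f6 i, a5 _ hq]
  rw [K5] at g6'' t6 r6
  have t6' : T6 ≤ β * W + 8 * sz u := by
    refine t6.trans (Nat.add_le_add_right (Nat.mul_le_mul_right _ (Nat.sub_le _ _)) _)
  have hfin : ∀ {σ7 : Store} {T7 : ℕ}, Reach G (Λ + 1) (.take K .nop (succP K N) (succP K N)) σ6
      T7 σ7 → T7 ≤ 4 * (Λ + 1) + 10 → (∀ q, K + 2 ≤ q → q ≠ Z + 2 → q ≠ Z + 4 → σ7 q = σ q) →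
      ((σ7 (Z + 2) = σ (Z + 2) ∧ β ≤ t) ∨ (σ7 (Z + 2) = [] ∧ σ7 (Z + 4) = τ 0)) →
      ∃ σ', Reach G (Λ + 1)
        (.seq (clrs (K + 2)) (.seq (.copy (Z + 3) 0) (.seq (.put 0 true)
    (.seq (.app Z 0 (Z + 5)) (.seq (.copy (Z + 1) K)
      (.seq (clk K 0 u) (.seq (.take K .nop (succP K N) (succP K N))
        (.put (Z + 3) false)))))))) σ (Tb K (sz u) β (Λ + 1) W) σ' ∧
      St K N x β (j + 1) (Λ + 1) σ' ∧
      ((σ' (Z + 2) = σ (Z + 2) ∧ β ≤ t) ∨ (σ' (Z + 2) = [] ∧ σ' (Z + 4) = τ 0)) := by
    intro σ7 T7 h7 hT7 a7 r7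
    have e7 : σ7 (Z + 3) = List.replicate j false := by
      rw [a7 _ (by omega) (by omega) (by omega), hP]
    have h8 : Reach G (Λ + 1) (.put (Z + 3) false) σ7 1
        (update σ7 (Z + 3) (List.replicate (j + 1) false)) := by
      have := Reach.put (G := G) (s := Λ + 1) (r := Z + 3) (σ := σ7) false
        (by rw [e7, List.length_replicate]; omega)
      rw [e7] at this
      rwa [List.replicate_succ']
    have hall := h1.seq (h2.seq (h3.seq (h4.seq (h5.seq (h6.seq (h7.seq h8))))))
    refine ⟨update σ7 (Z + 3) (List.replicate (j + 1) false), hall.mono ?_, ?_, ?_⟩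
    · unfold Tb
      omega
    · have hq : ∀ q, K + 2 ≤ q → q ≠ Z + 2 → q ≠ Z + 4 → q ≠ Z + 3 →
          update σ7 (Z + 3) (List.replicate (j + 1) false) q = σ q := by
        intro q q1 q2 q3 q4
        rw [update_of_ne q4, a7 q q1 q2 q3]
      refine ⟨?_, ?_, ?_, ?_, fun i i1 i2 => ?_, Reach.len hall hs⟩
      · rw [← hZ, hq _ (by omega) (by omega) (by omega) (by omega), hX]
      · rw [← hZ, hq _ (by omega) (by omega) (by omega) (by omega), hBu]
      · rw [← hZ, update_self]
      · rw [← hZ, hq _ (by omega) (by omega) (by omega) (by omega), hD]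
      · rw [hq _ (by omega) (by omega) (by omega) (by omega)]
        exact hC i i1 i2
    · rw [update_of_ne (by omega), update_of_ne (by omega)]
      exact r7
  rcases hK6 : σ6 K with _ | ⟨b, l⟩
  · refine hfin (Reach.take_nil hK6 Reach.nop) (by omega) (fun q q1 _ _ => a6 q q1) (Or.inl ⟨?_, ?_⟩)
    · exact a6 _ (by omega)
    · rw [hK6] at r6
      simp only [List.length_nil] at r6
      rcases r6 with ⟨_, r6⟩ | ⟨_, r6⟩ <;> omega
  · have hsim : σ6 0 = τ 0 := by
      rcases r6 with ⟨r6, _⟩ | ⟨r6, _⟩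
      · exact r6 0 hK
      · rw [hK6] at r6; cases r6
    have hl0 : (σ6 0).length ≤ Λ := by have := g6 0 hK; omega
    have hQ : (σ (Z + 2)).length ≤ Λ + 1 := hs _
    have h7 : Reach G (Λ + 1) (succP K N) (update σ6 K l) ((Λ + 1) + (3 * (Λ + 1) + 1))
        (update (update (update σ6 K l) (Z + 4) (σ6 0)) (Z + 2) []) := by
      unfold succP
      rw [← hZ]
      have e1 : update σ6 K l 0 = σ6 0 := update_of_ne (by omega) _ _
      have h8 := Reach.copy (G := G) (s := Λ + 1) (r := 0) (q := Z + 4) (σ := update σ6 K l)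
        (by rw [e1]; omega)
      rw [e1] at h8
      have h9 := Reach.clear (G := G) (s := Λ + 1) (update (update σ6 K l) (Z + 4) (σ6 0)) (Z + 2)
      have e2 : update (update σ6 K l) (Z + 4) (σ6 0) (Z + 2) = σ (Z + 2) := by
        rw [update_of_ne (by omega), update_of_ne (by omega), a6 _ (by omega)]
      rw [e2] at h9
      exact (h8.seq h9).mono (by omega)
    have h8 : Reach G (Λ + 1) (.take K .nop (succP K N) (succP K N)) σ6
        ((Λ + 1) + (3 * (Λ + 1) + 1) + 1)
        (update (update (update σ6 K l) (Z + 4) (σ6 0)) (Z + 2) []) := by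
      cases b
      · exact Reach.take_false hK6 h7
      · exact Reach.take_true hK6 h7
    refine hfin h8 (by omega) (fun q q1 q2 q3 => ?_) (Or.inr ⟨update_self _ _ _, ?_⟩)
    · rw [update_of_ne q2, update_of_ne q3, update_of_ne (by omega), a6 q q1]
    · rw [update_of_ne (by omega), update_self, hsim]

end Pool.Agent.L0h33.SG
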