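import Pool.Agent.L0h33.SG.Pos
import Pool.Agent.L0h33.SG.Base
import Pool.Agent.L0h33.SG.Seq

/-!
# Sets of lengths without long stretches
-/

set_option autoImplicit false

namespace Pool.Agent.L0h33.SG

open Pool.Agent.L0h34.OM Function

variable {G : Oracle} {s K N Λ W : ℕ}

/-- All trials. -/
def trials (K N : ℕ) (u : Prog) : Prog := .each (K + 2 + N + 2) (body K N u) (body K N u)

theorem reach_trials {u : Prog} {x : List Bool} {β : ℕ} {P : Prop} (hB : Below K u) (hK : 0 < K)
    (hN : dp u ≤ N) (hW : Λ + 8 * sz u + 20 ≤ W)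
    (hrun : ∀ j, ∃ (s0 t : ℕ) (τ : Store),
      Run G s0 u (init (List.replicate j false ++ true :: x)) t τ ∧ (P ↔ τ 0 ≠ [])) :
    ∀ (l j : ℕ) (σ : Store), St K N x β j (Λ + 1) σ → (σ (K + 2 + N + 2)).length = l →
      j + l + x.length + β + 1 ≤ Λ →
      (∃ j0, j ≤ j0 ∧ j0 < j + l ∧ ∃ (s0 t : ℕ) (τ : Store),
        Run G s0 u (init (List.replicate j0 false ++ true :: x)) t τ ∧ t < β) →
      ∃ σ', Reach G (Λ + 1) (trials K N u) σ (l * (Tb K (sz u) β (Λ + 1) W + 2) + 1) σ' ∧
        (P ↔ σ' (K + 2 + N + 4) ≠ []) := by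
  intro l
  induction l with
  | zero =>
    rintro j σ _ _ _ ⟨j0, h1, h2, _⟩
    omega
  | succ l ih =>
    rintro j σ hσ hl hΛ ⟨j0, h1, h2, hfast⟩
    obtain ⟨b, q, hbq⟩ : ∃ b q, σ (K + 2 + N + 2) = b :: q := by
      cases hq : σ (K + 2 + N + 2) with
      | nil => rw [hq] at hl; simp at hl
      | cons b q => exact ⟨b, q, rfl⟩
    have hql : q.length = l := by rw [hbq, List.length_cons] at hl; omega
    obtain ⟨σ1, hσ1⟩ : ∃ σ1, σ1 = update σ (K + 2 + N + 2) q := ⟨_, rfl⟩
    have a1 : ∀ r, r ≠ K + 2 + N + 2 → σ1 r = σ r := fun r hr => by rw [hσ1, update_of_ne hr]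
    have hσ1' : St K N x β j (Λ + 1) σ1 := by
      obtain ⟨hX, hBu, hP, hD, hC, hs⟩ := hσ
      refine ⟨?_, ?_, ?_, ?_, fun i i1 i2 => ?_, fun r => ?_⟩
      · rw [a1 _ (by omega), hX]
      · rw [a1 _ (by omega), hBu]
      · rw [a1 _ (by omega), hP]
      · rw [a1 _ (by omega), hD]
      · rw [a1 _ (by omega)]; exact hC i i1 i2
      · by_cases hr : r = K + 2 + N + 2
        · subst hr
          have := hs (K + 2 + N + 2)
          rw [hbq, List.length_cons] at this
          rw [hσ1, update_self]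
          omega
        · rw [a1 r hr]; exact hs r
    obtain ⟨s0, t, τ, hr, hP⟩ := hrun j
    obtain ⟨σ2, c1, c2, c3⟩ := reach_body hr hB hK hN hσ1' (by omega) hW
    rw [hσ1, update_self] at c3
    rw [hσ1] at c1
    have hcase : (∃ T', T' ≤ l * (Tb K (sz u) β (Λ + 1) W + 2) + 1 ∧
        ∃ σ', Reach G (Λ + 1) (trials K N u) σ2 T' σ' ∧ (P ↔ σ' (K + 2 + N + 4) ≠ [])) := by
      rcases c3 with ⟨d1, d2⟩ | ⟨d1, d2⟩
      · have hne : j0 ≠ j := by
          rintro rfl
          obtain ⟨s1, t1, τ1, e1, e2⟩ := hfast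
          have := (hr.det e1).1
          omega
        obtain ⟨σ', e1, e2⟩ := ih (j + 1) σ2 c2 (by rw [d1, hql]) (by omega)
          ⟨j0, by omega, by omega, hfast⟩
        exact ⟨_, le_rfl, σ', e1, e2⟩
      · refine ⟨1, by omega, σ2, Reach.each_nil d1, ?_⟩
        rw [d2]
        exact hP
    obtain ⟨T', hT', σ', e1, e2⟩ := hcase
    refine ⟨σ', ?_, e2⟩
    have e3 : Reach G (Λ + 1) (trials K N u) σ (Tb K (sz u) β (Λ + 1) W + T' + 2) σ' := by
      unfold trials at e1 ⊢
      cases b
      · exact Reach.each_false hbq c1 e1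
      · exact Reach.each_true hbq c1 e1
    refine e3.mono ?_
    rw [add_mul (l) 1]
    omega

/-- Repeat a program. -/
def rep : ℕ → Prog → Prog
  | 0, _ => .nop
  | k + 1, p => .seq p (rep k p)

/-- Double the budget. -/
def dbl (Z : ℕ) : Prog := .app (Z + 1) (Z + 1) (Z + 5)

theorem reach_rep {Z : ℕ} (k : ℕ) : ∀ (σ : Store), σ (Z + 5) = [] →
    (σ (Z + 1)).length * 2 ^ k ≤ s → ∃ l', l'.length = (σ (Z + 1)).length * 2 ^ k ∧
      Reach G s (rep k (dbl Z)) σ (k * (4 * s + 3) + 1) (update σ (Z + 1) l') := by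
  induction k with
  | zero =>
    intro σ _ _
    refine ⟨σ (Z + 1), by simp, ?_⟩
    rw [update_eq_self]
    exact Reach.nop.mono (by omega)
  | succ k ih =>
    intro σ hD hs
    obtain ⟨l, hl⟩ : ∃ l, σ (Z + 1) = l := ⟨_, rfl⟩
    rw [hl] at hs
    have hs2 : l.length * 2 * 2 ^ k ≤ s := by
      calc l.length * 2 * 2 ^ k = l.length * 2 ^ (k + 1) := by rw [pow_succ]; ring
        _ ≤ s := hs
    have hs3 : l.length * 2 ≤ s := by
      calc l.length * 2 = l.length * 2 * 1 := by ring
        _ ≤ l.length * 2 * 2 ^ k := Nat.mul_le_mul_left _ Nat.one_le_two_pow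
        _ ≤ s := hs2
    have h1 : Reach G s (dbl Z) σ (4 * l.length + 2) (update σ (Z + 1) (l ++ l)) := by
      have := Reach.app (G := G) (s := s) (r := Z + 1) (q := Z + 1) (d := Z + 5) σ (by omega)
        (by rw [hl]; omega)
      rw [hl] at this
      have e : update (update σ (Z + 1) (l ++ l)) (Z + 5) [] = update σ (Z + 1) (l ++ l) := by
        rw [update_eq_iff]
        exact ⟨by rw [update_of_ne (by omega), hD], fun _ _ => rfl⟩
      rwa [e] at this
    obtain ⟨l', hl', h2⟩ := ih (update σ (Z + 1) (l ++ l)) (by rw [update_of_ne (by omega), hD])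
      (by rw [update_self, List.length_append]
          calc (l.length + l.length) * 2 ^ k = l.length * 2 * 2 ^ k := by ring
            _ ≤ s := hs2)
    rw [update_idem] at h2
    refine ⟨l', ?_, (h1.seq h2).mono ?_⟩
    · rw [hl', update_self, List.length_append, hl, pow_succ]
      ring
    · have e : (k + 1) * (4 * s + 3) = k * (4 * s + 3) + (4 * s + 3) := by ring
      omega

theorem reach_each {Z c : ℕ} (hZ : 0 < Z) (l : List Bool) : ∀ (σ : Store), σ 0 = l →
    σ (Z + 5) = [] → (σ (Z + 1)).length * 2 ^ (c * l.length) ≤ s →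
      ∃ l', l'.length = (σ (Z + 1)).length * 2 ^ (c * l.length) ∧
      Reach G s (.each 0 (rep c (dbl Z)) (rep c (dbl Z))) σ
        (l.length * (c * (4 * s + 3) + 3) + 1) (update (update σ (Z + 1) l') 0 []) := by
  induction l with
  | nil =>
    intro σ h0 _ _
    refine ⟨σ (Z + 1), by simp, ?_⟩
    have e : update (update σ (Z + 1) (σ (Z + 1))) 0 [] = σ := by
      rw [update_eq_self, update_eq_iff]
      exact ⟨h0.symm, fun _ _ => rfl⟩
    rw [e]
    exact (Reach.each_nil h0).mono (by omega)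
  | cons b l ih =>
    intro σ h0 hD hs
    rw [List.length_cons] at hs
    have hs2 : (σ (Z + 1)).length * 2 ^ c * 2 ^ (c * l.length) ≤ s := by
      calc (σ (Z + 1)).length * 2 ^ c * 2 ^ (c * l.length) =
            (σ (Z + 1)).length * 2 ^ (c * (l.length + 1)) := by
            rw [mul_assoc, ← pow_add]; congr 2; ring
        _ ≤ s := hs
    have e0 : update σ 0 l (Z + 1) = σ (Z + 1) := update_of_ne (by omega) _ _
    obtain ⟨l1, hl1, h1⟩ := reach_rep (G := G) (s := s) c (update σ 0 l)
      (by rw [update_of_ne (by omega), hD])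
      (by rw [e0]
          calc (σ (Z + 1)).length * 2 ^ c = (σ (Z + 1)).length * 2 ^ c * 1 := by ring
            _ ≤ (σ (Z + 1)).length * 2 ^ c * 2 ^ (c * l.length) :=
              Nat.mul_le_mul_left _ Nat.one_le_two_pow
            _ ≤ s := hs2)
    rw [e0] at hl1
    obtain ⟨l2, hl2, h2⟩ := ih (update (update σ 0 l) (Z + 1) l1)
      (by rw [update_of_ne (by omega), update_self])
      (by rw [update_of_ne (by omega), update_of_ne (by omega), hD])
      (by rw [update_self, hl1]; exact hs2)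
    refine ⟨l2, ?_, ?_⟩
    · rw [hl2, update_self, hl1, List.length_cons, mul_assoc, ← pow_add]
      congr 2; ring
    · have e : update (update (update (update σ 0 l) (Z + 1) l1) (Z + 1) l2) 0 [] =
          update (update σ (Z + 1) l2) 0 [] := by
        rw [update_idem]
        funext p
        by_cases hp : p = 0
        · subst hp; simp
        · by_cases hp2 : p = Z + 1
          · subst hp2; simp [update_of_ne hp]
          · simp [update_of_ne hp, update_of_ne hp2]
      rw [e] at h2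
      have e4 : (b :: l).length * (c * (4 * s + 3) + 3) + 1 =
          l.length * (c * (4 * s + 3) + 3) + 1 + (c * (4 * s + 3) + 3) := by
        rw [List.length_cons]; ring
      rw [e4]
      cases b
      · exact (Reach.each_false h0 h1 h2).mono (by omega)
      · exact (Reach.each_true h0 h1 h2).mono (by omega)

/-- Prepare the budget. -/
def prep (Z c : ℕ) : Prog := .seq (.copy 0 Z) (.seq (.put (Z + 1) true) (.seq (rep c (dbl Z))
  (.seq (.each 0 (rep c (dbl Z)) (rep c (dbl Z))) (.copy (Z + 1) (Z + 2)))))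

theorem reach_prep {c : ℕ} (x : List Bool) (hx : x.length ≤ s)
    (hs : 2 ^ (c * (x.length + 1)) ≤ s) :
    ∃ σ', Reach G s (prep (K + 2 + N) c) (init x) (x.length + 1 + 1 + (c * (4 * s + 3) + 1) +
        (x.length * (c * (4 * s + 3) + 3) + 1) + (2 ^ (c * (x.length + 1)) + 1)) σ' ∧
      St K N x (2 ^ (c * (x.length + 1))) 0 s σ' ∧
      (σ' (K + 2 + N + 2)).length = 2 ^ (c * (x.length + 1)) := by
  obtain ⟨Z, hZ⟩ : ∃ Z, Z = K + 2 + N := ⟨_, rfl⟩
  have h1s : 1 ≤ s := le_trans Nat.one_le_two_pow hs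
  have i0 : ∀ q, q ≠ 0 → init x q = [] := fun q hq => by unfold init; rw [if_neg hq]
  have h1 : Reach G s (.copy 0 Z) (init x) (x.length + 1) (update (init x) Z x) := by
    have := Reach.copy (G := G) (s := s) (r := 0) (q := Z) (σ := init x) (by simpa [init] using hx)
    simpa [init] using this
  have h2 : Reach G s (.put (Z + 1) true) (update (init x) Z x) 1
      (update (update (init x) Z x) (Z + 1) [true]) := by
    have e : update (init x) Z x (Z + 1) = [] := by rw [update_of_ne (by omega), i0 _ (by omega)]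
    have := Reach.put (G := G) (s := s) (r := Z + 1) (σ := update (init x) Z x) true
      (by rw [e]; simpa using h1s)
    rwa [e] at this
  obtain ⟨σ2, hσ2⟩ : ∃ σ2, σ2 = update (update (init x) Z x) (Z + 1) [true] := ⟨_, rfl⟩
  have a2 : ∀ q, q ≠ 0 → q ≠ Z → q ≠ Z + 1 → σ2 q = [] := fun q q1 q2 q3 => by
    rw [hσ2, update_of_ne q3, update_of_ne q2, i0 q q1]
  have b2 : σ2 (Z + 1) = [true] := by rw [hσ2, update_self]
  have c2 : σ2 0 = x := by
    rw [hσ2, update_of_ne (by omega), update_of_ne (by omega)]; rfl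
  have d2 : σ2 Z = x := by rw [hσ2, update_of_ne (by omega), update_self]
  rw [← hσ2] at h2
  have hpow : 2 ^ (c * (x.length + 1)) = 2 ^ c * 2 ^ (c * x.length) := by
    rw [← pow_add]; congr 1; ring
  obtain ⟨l3, hl3, h3⟩ := reach_rep (G := G) (s := s) (Z := Z) c σ2
    (a2 _ (by omega) (by omega) (by omega))
    (by rw [b2]
        simp only [List.length_cons, List.length_nil, zero_add, one_mul]
        refine le_trans (Nat.pow_le_pow_right (by norm_num) ?_) hs
        exact Nat.le_mul_of_pos_right _ (by omega))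
  rw [b2] at hl3
  simp only [List.length_cons, List.length_nil, zero_add, one_mul] at hl3
  obtain ⟨l4, hl4, h4⟩ := reach_each (G := G) (s := s) (Z := Z) (c := c) (by omega) x
    (update σ2 (Z + 1) l3) (by rw [update_of_ne (by omega), c2])
    (by rw [update_of_ne (by omega)]; exact a2 _ (by omega) (by omega) (by omega))
    (by rw [update_self, hl3, ← hpow]; exact hs)
  rw [update_self, hl3, ← hpow] at hl4
  rw [update_idem] at h4
  obtain ⟨σ4, hσ4⟩ : ∃ σ4, σ4 = update (update σ2 (Z + 1) l4) 0 [] := ⟨_, rfl⟩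
  rw [← hσ4] at h4
  have b4 : σ4 (Z + 1) = l4 := by rw [hσ4, update_of_ne (by omega), update_self]
  have a4 : ∀ q, q ≠ Z → q ≠ Z + 1 → σ4 q = [] := by
    intro q q1 q2
    rw [hσ4]
    by_cases hq : q = 0
    · rw [hq, update_self]
    · rw [update_of_ne hq, update_of_ne q2, a2 q hq q1 q2]
  have d4 : σ4 Z = x := by
    rw [hσ4, update_of_ne (by omega), update_of_ne (by omega), d2]
  have h5 : Reach G s (.copy (Z + 1) (Z + 2)) σ4 (2 ^ (c * (x.length + 1)) + 1)
      (update σ4 (Z + 2) l4) := by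
    have := Reach.copy (G := G) (s := s) (r := Z + 1) (q := Z + 2) (σ := σ4)
      (by rw [b4, hl4]; exact hs)
    rwa [b4, hl4] at this
  have hall := h1.seq (h2.seq (h3.seq (h4.seq h5)))
  have hinit : ∀ r, (init x r).length ≤ s := by
    intro r
    unfold init
    split_ifs
    · exact hx
    · simp
  rw [← hZ]
  refine ⟨update σ4 (Z + 2) l4, ?_, ?_, ?_⟩
  · exact hall.mono (by omega)
  · refine ⟨?_, ?_, ?_, ?_, fun i _ i2 => ?_, Reach.len hall hinit⟩
    · rw [← hZ, update_of_ne (by omega), d4]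
    · rw [← hZ, update_of_ne (by omega), b4, hl4]
    · rw [← hZ, update_of_ne (by omega), a4 _ (by omega) (by omega)]; rfl
    · rw [← hZ, update_of_ne (by omega), a4 _ (by omega) (by omega)]
    · rw [update_of_ne (by omega), a4 _ (by omega) (by omega)]
  · rw [update_self, hl4]

/-- The program which tries all paddings. -/
def search (K N c : ℕ) (u : Prog) : Prog :=
  .seq (prep (K + 2 + N) c) (.seq (trials K N u) (.copy (K + 2 + N + 4) 0))

theorem time_bound {K z c n b : ℕ} (hn : n + 1 ≤ b) :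
    (n + 1 + 1 + (c * (4 * (4 * b + 1) + 3) + 1) + (n * (c * (4 * (4 * b + 1) + 3) + 3) + 1) +
      (b + 1)) + ((b * (Tb K z b (4 * b + 1) (4 * b + 8 * z + 20) + 2) + 1) + (4 * b + 1 + 1)) ≤
      (46 * c + 16 * K + 16 * z + 250) * (b * b * b) := by
  unfold Tb
  obtain ⟨A, hA⟩ : ∃ A, A = b * b * b := ⟨_, rfl⟩
  have hb : 1 ≤ b := by omega
  have h2 : b ≤ b * b := Nat.le_mul_of_pos_left _ hb
  have h3 : b * b ≤ A := by rw [hA]; exact Nat.le_mul_of_pos_right _ hb
  have f1 : 1 ≤ A := by omega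
  have f2 : b ≤ A := by omega
  have k1 : K * b ≤ K * A := Nat.mul_le_mul_left _ f2
  have k2 : K * (b * b) ≤ K * A := Nat.mul_le_mul_left _ h3
  have z1 : z * b ≤ z * A := Nat.mul_le_mul_left _ f2
  have z2 : z * (b * b) ≤ z * A := Nat.mul_le_mul_left _ h3
  have c0 : c ≤ c * A := Nat.le_mul_of_pos_right _ f1
  have c1 : c * b ≤ c * A := Nat.mul_le_mul_left _ f2
  have c2 : c * (b * b) ≤ c * A := Nat.mul_le_mul_left _ h3
  have n1 : n * (c * (4 * (4 * b + 1) + 3) + 3) ≤ b * (c * (4 * (4 * b + 1) + 3) + 3) :=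
    Nat.mul_le_mul_right _ (by omega)
  have e1 : b * (c * (4 * (4 * b + 1) + 3) + 3) = 16 * (c * (b * b)) + 7 * (c * b) + 3 * b := by ring
  have e2 : c * (4 * (4 * b + 1) + 3) = 16 * (c * b) + 7 * c := by ring
  have e3 : b * ((K + 2) * (3 * (4 * b + 1) + 1) + 20 * (4 * b + 1) + b * (4 * b + 8 * z + 20) +
      8 * z + 20 + 2) = 12 * (K * (b * b)) + 4 * (K * b) + 24 * (b * b) + 8 * b +
      80 * (b * b) + 20 * b + 4 * (b * b * b) + 8 * (z * (b * b)) + 20 * (b * b) +
      8 * (z * b) + 22 * b := by ring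
  have e4 : (46 * c + 16 * K + 16 * z + 250) * A = 46 * (c * A) + 16 * (K * A) + 16 * (z * A) +
      250 * A := by ring
  rw [e1] at n1
  rw [e3, ← hA, e4]
  clear e1 e3 e4
  generalize n * (c * (4 * (4 * b + 1) + 3) + 3) = nn at *
  rw [e2]
  clear e2 hA
  generalize K * A = KA at *
  generalize z * A = zA at *
  generalize c * A = cA at *
  generalize c * (b * b) = cbb at *
  generalize c * b = cb at *
  generalize K * (b * b) = kbb at *
  generalize K * b = kb at *
  generalize z * (b * b) = zbb at *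
  generalize z * b = zb at *
  generalize b * b = bb at *
  omega

end Pool.Agent.L0h33.SG
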