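import Pool.Agent.L0h33.SG.Pos2

/-!
# Sets of lengths without long stretches: the conclusion
-/

set_option autoImplicit false

namespace Pool.Agent.L0h33.SG

open Pool.Agent.L0h34.OM Function

/-- Remove the first bits up to the first `true`. -/
def strip : List Bool → List Bool
  | [] => []
  | false :: l => strip l
  | true :: l => l

theorem strip_pad (j : ℕ) (x : List Bool) : strip (List.replicate j false ++ true :: x) = x := by
  induction j with
  | zero => rfl
  | succ j ih => rw [List.replicate_succ, List.cons_append]; exact ih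

theorem length_strip (y : List Bool) : (strip y).length ≤ y.length := by
  induction y with
  | nil => exact le_rfl
  | cons b l ih =>
    cases b
    · exact ih.trans (by simp)
    · unfold strip; simp

/-- Remove the padding and do `u`. -/
def stripP (u : Prog) : Prog :=
  .seq (.put 1 true) (.seq (.loop 1 (.take 0 (rm 1) .nop (rm 1))) u)

theorem reach_strip {G : Oracle} {s : ℕ} (y : List Bool) :
    ∃ T, Reach G s (.loop 1 (.take 0 (rm 1) .nop (rm 1))) (update (init y) 1 [true]) T
      (init (strip y)) := by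
  have hfin : ∀ l : List Bool, update (update (init l) 1 [true]) 1 [] = init l := by
    intro l
    rw [update_idem, update_eq_iff]
    exact ⟨rfl, fun _ _ => rfl⟩
  have hsh : ∀ (b : Bool) (l : List Bool), update (update (init (b :: l)) 1 [true]) 0 l =
      update (init l) 1 [true] := by
    intro b l
    funext p
    by_cases hp : p = 0
    · subst hp; simp [init]
    · by_cases hp2 : p = 1
      · subst hp2; simp
      · simp [update_of_ne hp, update_of_ne hp2, init, hp]
  have hne : ∀ l : List Bool, update (init l) 1 [true] 1 ≠ [] := by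
    intro l; rw [update_self]; simp
  induction y with
  | nil =>
    have h1 : Reach G s (.take 0 (rm 1) .nop (rm 1)) (update (init []) 1 [true]) 3 (init []) := by
      refine Reach.take_nil (by rw [update_of_ne (by omega)]; rfl) ?_
      have := reach_rm (G := G) (s := s) (σ := update (init []) 1 [true]) (d := 1)
        (update_self _ _ _)
      rwa [hfin] at this
    exact ⟨_, Reach.loop_cons (hne _) h1 (Reach.loop_nil rfl)⟩
  | cons b l ih =>
    obtain ⟨T, ih⟩ := ih
    have h0 : ∀ b, update (init (b :: l)) 1 [true] 0 = b :: l := by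
      intro b
      rw [update_of_ne (by omega)]; rfl
    cases b
    · have h1 : Reach G s (.take 0 (rm 1) .nop (rm 1)) (update (init (false :: l)) 1 [true]) 2
          (update (init l) 1 [true]) := by
        refine Reach.take_false (h0 _) ?_
        rw [hsh]
        exact Reach.nop
      exact ⟨_, Reach.loop_cons (hne _) h1 ih⟩
    · have h1 : Reach G s (.take 0 (rm 1) .nop (rm 1)) (update (init (true :: l)) 1 [true]) 3
          (init l) := by
        refine Reach.take_true (h0 _) ?_
        rw [hsh]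
        have := reach_rm (G := G) (s := s) (σ := update (init l) 1 [true]) (d := 1)
          (update_self _ _ _)
        rwa [hfin] at this
      exact ⟨_, Reach.loop_cons (hne _) h1 (Reach.loop_nil rfl)⟩

theorem espace_strip {A : Oracle} {L : Set (List Bool)} (hL : EXPSPACE A L) :
    EXPSPACE A {y | strip y ∈ L} := by
  obtain ⟨c, u, hu⟩ := hL
  refine ⟨c, stripP u, fun y => ?_⟩
  obtain ⟨t, τ, h1, h2⟩ := hu (strip y)
  have h3 : Reach A (2 ^ (c * (y.length + 1))) (.put 1 true) (init y) 1
      (update (init y) 1 [true]) := by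
    have := Reach.put (G := A) (s := 2 ^ (c * (y.length + 1))) (r := 1) (σ := init y) true
      (by simpa [init] using Nat.one_le_two_pow)
    simpa [init] using this
  obtain ⟨T, h4⟩ := reach_strip (G := A) (s := 2 ^ (c * (y.length + 1))) y
  have h5 : Reach A (2 ^ (c * (y.length + 1))) u (init (strip y)) t τ :=
    ⟨t, le_rfl, h1.mono (Nat.pow_le_pow_right (by norm_num)
      (Nat.mul_le_mul_left _ (by have := length_strip y; omega)))⟩
  obtain ⟨t', _, h6⟩ := h3.seq (h4.seq h5)
  exact ⟨t', τ, h6, h2⟩

/-- Without long stretches the programs which are fast off `S` can be made fast on all inputs. -/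
theorem short_case {A : Oracle} {S : Set ℕ} (hS : ¬ LongStretches S) (hF : FastOff A S)
    {L : Set (List Bool)} (hL : EXPSPACE A L) : EXPTIME A L := by
  unfold LongStretches at hS
  push Not at hS
  obtain ⟨C, hC⟩ := hS
  obtain ⟨t, ⟨u, hu⟩, c, hc⟩ := hF _ (espace_strip hL)
  obtain ⟨K0, hK0⟩ := exists_below u
  obtain ⟨K, hK⟩ : ∃ K, K = K0 + 1 := ⟨_, rfl⟩
  have hB : Below K u := hK0.mono (by omega)
  obtain ⟨N, hN⟩ : ∃ N, N = dp u := ⟨_, rfl⟩
  obtain ⟨c1, hc1⟩ : ∃ c1, c1 = c * (C + 1) + C + 1 := ⟨_, rfl⟩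
  obtain ⟨κ, hκ⟩ : ∃ κ, κ = 46 * c1 + 16 * K + 16 * sz u + 250 := ⟨_, rfl⟩
  refine ⟨κ + 3 * c1, search K N c1 u, fun x => ?_⟩
  obtain ⟨b, hb⟩ : ∃ b, b = 2 ^ (c1 * (x.length + 1)) := ⟨_, rfl⟩
  have hxb : x.length + 1 ≤ b := by
    have h1 : x.length + 1 ≤ c1 * (x.length + 1) := Nat.le_mul_of_pos_left _ (by omega)
    have h2 : c1 * (x.length + 1) < 2 ^ (c1 * (x.length + 1)) := Nat.lt_two_pow_self
    omega
  obtain ⟨σ1, p1, p2, p3⟩ := reach_prep (G := A) (K := K) (N := N) (c := c1) (s := 4 * b + 1) x
    (by omega) (by omega)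
  rw [← hb] at p1 p2 p3
  have hrun : ∀ j, ∃ (s0 t' : ℕ) (τ : Store),
      Run A s0 u (init (List.replicate j false ++ true :: x)) t' τ ∧ (x ∈ L ↔ τ 0 ≠ []) := by
    intro j
    obtain ⟨s0, t', τ, h1, _, h3⟩ := hu (List.replicate j false ++ true :: x)
    refine ⟨s0, t', τ, h1, ?_⟩
    rw [← h3, Set.mem_ofPred_eq, strip_pad]
  have hfast : ∃ j0, 0 ≤ j0 ∧ j0 < 0 + b ∧ ∃ (s0 t' : ℕ) (τ : Store),
      Run A s0 u (init (List.replicate j0 false ++ true :: x)) t' τ ∧ t' < b := by
    obtain ⟨m, m1, m2, m3⟩ := hC (x.length + 1) (by omega)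
    have hj : m - (x.length + 1) + (x.length + 1) = m := by omega
    refine ⟨m - (x.length + 1), by omega, ?_, ?_⟩
    · have h1 : C * (x.length + 1) ≤ c1 * (x.length + 1) := Nat.mul_le_mul_right _ (by omega)
      have h2 : c1 * (x.length + 1) < 2 ^ (c1 * (x.length + 1)) := Nat.lt_two_pow_self
      omega
    · obtain ⟨s0, t', τ, h1, h2, _⟩ := hu (List.replicate (m - (x.length + 1)) false ++ true :: x)
      refine ⟨s0, t', τ, h1, lt_of_le_of_lt h2 ?_⟩
      have hlen : (List.replicate (m - (x.length + 1)) false ++ true :: x).length = m := by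
        rw [List.length_append, List.length_replicate, List.length_cons]; omega
      rw [hlen]
      refine lt_of_le_of_lt (hc m m3) ?_
      rw [hb]
      refine Nat.pow_lt_pow_right (by norm_num) ?_
      have h3 : c * (m + 1) ≤ c * ((C + 1) * (x.length + 1)) := by
        refine Nat.mul_le_mul_left _ ?_
        rw [add_mul, one_mul]
        omega
      have h4 : c1 * (x.length + 1) = c * ((C + 1) * (x.length + 1)) + C * (x.length + 1) +
          (x.length + 1) := by rw [hc1]; ring
      omega
  obtain ⟨σ2, q1, q2⟩ := reach_trials (G := A) (K := K) (N := N) (Λ := 4 * b)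
    (W := 4 * b + 8 * sz u + 20) (P := x ∈ L) hB (by omega) (by omega) le_rfl hrun b 0 σ1 p2 p3
    (by omega) hfast
  have hlen2 : (σ2 (K + 2 + N + 4)).length ≤ 4 * b + 1 := Reach.len q1 p2.hs _
  have q3 : Reach A (4 * b + 1) (.copy (K + 2 + N + 4) 0) σ2 (4 * b + 1 + 1)
      (update σ2 0 (σ2 (K + 2 + N + 4))) := (Reach.copy hlen2).mono (by omega)
  obtain ⟨T, hT, hfin⟩ := p1.seq (q1.seq q3)
  refine ⟨_, T, _, hfin, ?_, by rw [update_self]; exact q2⟩
  refine (hT.trans (time_bound hxb)).trans ?_
  rw [← hκ]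
  have h5 : b * b * b = 2 ^ (3 * (c1 * (x.length + 1))) := by
    rw [hb, ← pow_add, ← pow_add]; congr 1; ring
  have h6 : κ ≤ 2 ^ (κ * (x.length + 1)) := by
    have h7 : κ ≤ κ * (x.length + 1) := Nat.le_mul_of_pos_right _ (by omega)
    have h8 : κ * (x.length + 1) < 2 ^ (κ * (x.length + 1)) := Nat.lt_two_pow_self
    omega
  calc κ * (b * b * b) ≤ 2 ^ (κ * (x.length + 1)) * (b * b * b) := Nat.mul_le_mul_right _ h6
    _ = 2 ^ ((κ + 3 * c1) * (x.length + 1)) := by
        rw [h5, ← pow_add]; congr 1; ring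

end Pool.Agent.L0h33.SG
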